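import Pool.Agent.Work.MP_e487d8_al.Mod.Shuf

/-! MP_e487d8_al: THE CONTRACT. The module level statements which are used for the construction of
the abstract system (`Abs/Sys.lean`) and of the crystal (`Span/Crys.lean`).

`SMod D` = simple nilpotent modules (bundled). Everything is up to isomorphism (`SMod.Iso`), there
is no grading here. -/

set_option autoImplicit false

open Pool.Agent.E487.Hopf

namespace Pool.Agent.KLR

variable {K I : Type} [Field K] [Fintype I] [DecidableEq I]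

/-- a simple nilpotent module -/
structure SMod (D : Datum K I) : Type 1 where
  n : ℕ
  M : Type
  [acg : AddCommGroup M]
  [modK : Module K M]
  [modR : Module (KLRAlg D) M]
  [tow : IsScalarTower K (KLRAlg D) M]
  smp : Smp D n M

attribute [instance] SMod.acg SMod.modK SMod.modR SMod.tow

/-- `Z` is a quotient of `M` -/
def Quo (D : Datum K I) (Z M : Type) [AddCommGroup Z] [Module (KLRAlg D) Z] [AddCommGroup M]
    [Module (KLRAlg D) M] : Prop := ∃ f : M →ₗ[KLRAlg D] Z, Function.Surjective f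

/-- `Z` is a subquotient of `M` -/
def SubQ (D : Datum K I) (Z M : Type) [AddCommGroup Z] [Module (KLRAlg D) Z] [AddCommGroup M]
    [Module (KLRAlg D) M] : Prop :=
  ∃ (N : Submodule (KLRAlg D) M) (f : N →ₗ[KLRAlg D] Z), Function.Surjective f

namespace SMod

variable {D : Datum K I}

/-- the character -/
noncomputable def ch (X : SMod D) : List I → ℕ := chr D X.n X.M

/-- isomorphic -/
def Iso (X Y : SMod D) : Prop := Nonempty (X.M ≃ₗ[KLRAlg D] Y.M)

/-- the convolution product of two simple modules -/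
abbrev conv (X Y : SMod D) : Type := Conv D X.n X.M Y.M

/-- `X ∘ Y` is simple -/
def Comm (X Y : SMod D) : Prop := IsSimpleModule (KLRAlg D) (X.conv Y)

/-- `X` is real -/
def Real (X : SMod D) : Prop := X.Comm X

/-- the number of strands of colour `i` (all words of `X` have the same content, see
`Fin/Wt.lean`) -/
noncomputable def wt (X : SMod D) (i : I) : ℕ :=
  open Classical in if h : ∃ ν, X.ch ν ≠ 0 then h.choose.count i else 0

/-- `(α_i, wt X)` -/
noncomputable def pr (i : I) (X : SMod D) : ℤ := ∑ j, D.A i j * (X.wt j : ℤ)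

/-- the number `∑_{i ≠ j} (-A i j) (wt X)_i (wt Y)_j` = the degree of the product of the two
intertwiners; `Λ(C, X) = dd C X - 2 s(C, X)` -/
noncomputable def dd (X Y : SMod D) : ℕ :=
  ∑ i, ∑ j, if i = j then 0 else D.q i j * X.wt i * Y.wt j

/-- `Y = e_i^max X` and `ε_i(X) = a`, on the level of characters -/
def Emax (i : I) (a : ℕ) (X Y : SMod D) : Prop :=
  X.n = a + Y.n ∧ (∀ ν, X.ch (List.replicate a i ++ ν) = a.factorial * Y.ch ν) ∧
    ∀ ν, Y.ch (i :: ν) = 0

end SMod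

variable (D : Datum K I)

/-- CONV: dimension and character of a convolution product -/
def S_conv : Prop :=
  ∀ (m n : ℕ) (M N : Type) [AddCommGroup M] [Module K M] [Module (KLRAlg D) M]
    [IsScalarTower K (KLRAlg D) M]
    [AddCommGroup N] [Module K N] [Module (KLRAlg D) N] [IsScalarTower K (KLRAlg D) N],
    FdMod D m M → FdMod D n N → FdMod D (m + n) (Conv D m M N) ∧
      chrQ D (m + n) (Conv D m M N) = chrQ D m M * chrQ D n N

/-- CRY: `Lp i a` is the simple module `L(i^a)` of the nilHecke algebra -/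
structure CFacts (Lp : I → ℕ → SMod D) : Prop where
  n_Lp : ∀ i a, (Lp i a).n = a
  ch_Lp : ∀ i a ν, (Lp i a).ch ν = if ν = List.replicate a i then a.factorial else 0
  /-- existence of `e_i^max X` -/
  res : ∀ (i : I) (X : SMod D), ∃ (a : ℕ) (Y : SMod D), SMod.Emax i a X Y ∧
    Quo D X.M ((Lp i a).conv Y)
  /-- `L(i^a) ∘ Y` has only one simple quotient -/
  hd_iso : ∀ (i : I) (a : ℕ) (Y Z Z' : SMod D), Quo D Z.M ((Lp i a).conv Y) →
    Quo D Z'.M ((Lp i a).conv Y) → Z.Iso Z'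
  /-- `ε_i` and `e_i^max` of the simple quotient of `L(i^a) ∘ Y` -/
  hd_Emax : ∀ (i : I) (a b : ℕ) (Y W Z : SMod D), SMod.Emax i b Y W →
    Quo D Z.M ((Lp i a).conv Y) → SMod.Emax i (a + b) Z W

/-- RMAT: `s C X` = order of vanishing of the R-matrix `C_z ∘ X → X ∘ C_z`, `s' C X` = order of
vanishing of the R-matrix `X ∘ C_z → C_z ∘ X`; only used for `C` real -/
structure RFacts (s s' : SMod D → SMod D → ℕ) : Prop where
  /-- `𝔡(C, X) ≥ 0` -/
  le : ∀ C X : SMod D, C.Real → s C X + s' C X ≤ SMod.dd C X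
  /-- `𝔡(C, X) = 0` if `C ∘ X` is simple -/
  comm : ∀ C X : SMod D, C.Real → C.Comm X → s C X + s' C X = SMod.dd C X
  /-- K2 -/
  sub : ∀ C X Y Z : SMod D, C.Real → SubQ D Z.M (X.conv Y) → s C X + s C Y ≤ s C Z
  sub' : ∀ C X Y Z : SMod D, C.Real → SubQ D Z.M (X.conv Y) → s' C X + s' C Y ≤ s' C Z
  eq : ∀ C X Y Z : SMod D, C.Real → Nonempty (X.conv Y ≃ₗ[KLRAlg D] Z.M) →
    s C Z = s C X + s C Y
  eq' : ∀ C X Y Z : SMod D, C.Real → Nonempty (X.conv Y ≃ₗ[KLRAlg D] Z.M) →
    s' C Z = s' C X + s' C Y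
  /-- K3: the head `H` of `C ∘ X`, all other constituents of `C ∘ X` have larger `s` -/
  hd : ∀ C X : SMod D, C.Real → ∃ (H : SMod D) (f : C.conv X →ₗ[KLRAlg D] H.M),
    Function.Surjective f ∧ s C H = s C C + s C X ∧
    ∀ Z : SMod D, SubQ D Z.M (LinearMap.ker f) → s C C + s C X < s C Z
  /-- K3, mirror: the head `H` of `X ∘ C` -/
  hd' : ∀ C X : SMod D, C.Real → ∃ (H : SMod D) (f : X.conv C →ₗ[KLRAlg D] H.M),
    Function.Surjective f ∧ s' C H = s' C C + s' C X ∧
    ∀ Z : SMod D, SubQ D Z.M (LinearMap.ker f) → s' C C + s' C X < s' C Z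
  /-- the head is the only simple quotient -/
  hd_iso : ∀ C X Z Z' : SMod D, C.Real → Quo D Z.M (C.conv X) → Quo D Z'.M (C.conv X) → Z.Iso Z'
  hd_iso' : ∀ C X Z Z' : SMod D, C.Real → Quo D Z.M (X.conv C) → Quo D Z'.M (X.conv C) →
    Z.Iso Z'
  /-- K1: if `C ∘ X` and `X ∘ C` have the same head then `C ∘ X` is simple -/
  simple : ∀ C X H : SMod D, C.Real → Quo D H.M (C.conv X) → Quo D H.M (X.conv C) → C.Comm X
  /-- K4 -/
  inj : ∀ C X Y H : SMod D, C.Real → Quo D H.M (C.conv X) → Quo D H.M (C.conv Y) → X.Iso Y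
  inj' : ∀ C X Y H : SMod D, C.Real → Quo D H.M (X.conv C) → Quo D H.M (Y.conv C) → X.Iso Y
  /-- Lemma H -/
  real : ∀ C M H : SMod D, C.Real → M.Real → Quo D H.M (C.conv M) → C.Comm H → H.Real
  real' : ∀ C M H : SMod D, C.Real → M.Real → Quo D H.M (M.conv C) → C.Comm H → H.Real
  /-- the trivial module (no strands) -/
  one : ∀ C X : SMod D, C.n = 0 → s C X = 0

/-- RMAT (S2): `s(L(i), X) = wt_i(X) - ε_i(X)`, `s(X, L(i)) = wt_i(X) - ε*_i(X)` -/
structure LFacts (s s' : SMod D → SMod D → ℕ) : Prop where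
  eps : ∀ (i : I) (C X : SMod D) (a : ℕ) (μ : List I), C.ch [i] ≠ 0 →
    X.ch (List.replicate a i ++ μ) ≠ 0 → (∀ ν, X.ch (List.replicate (a + 1) i ++ ν) = 0) →
    s C X + a = X.wt i
  eps' : ∀ (i : I) (C X : SMod D) (a : ℕ) (μ : List I), C.ch [i] ≠ 0 →
    X.ch (μ ++ List.replicate a i) ≠ 0 → (∀ ν, X.ch (ν ++ List.replicate (a + 1) i) = 0) →
    s' C X + a = X.wt i

/-- GRAD: the degree of `r_{C,C}` is `0`; the formula for `Λ(C, Y)` for commuting pairs -/
structure GFacts (s s' : SMod D → SMod D → ℕ) : Prop where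
  self : ∀ C : SMod D, C.Real → 2 * s C C = SMod.dd C C
  self' : ∀ C : SMod D, C.Real → 2 * s' C C = SMod.dd C C
  lam : ∀ (i : I) (a b : ℕ) (C Y C₁ Y₁ : SMod D), C.Real → C.Comm Y → SMod.Emax i a C C₁ →
    SMod.Emax i b Y Y₁ → (SMod.dd C Y : ℤ) - 2 * s C Y =
      (SMod.dd C₁ Y₁ : ℤ) - 2 * s C₁ Y₁ + (b * SMod.pr i C₁ - a * SMod.pr i Y₁)

end Pool.Agent.KLR
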