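import Pool.Agent.Work.MP_e487d8_al.Fin.Statement
import Pool.Agent.Work.MP_e487d8_al.Fin.Need
import Pool.Agent.Work.MP_e487d8_al.Abs.Main

/-! MP_e487d8_al: from the abstract theorem on isomorphism classes to graded modules.
`GrFacts` is the contract of the block GRAD, `UFacts` the contract of the block Fin. -/

set_option autoImplicit false

namespace Pool.Agent.KLR

variable {K I : Type} [Field K] [Fintype I] [DecidableEq I]

/-- the facts on gradings -/
structure GrFacts (D : Datum K I) : Prop where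
  nilp : ∀ X : GMod D, Nilp D X.M
  simple : ∀ X : GMod D, X.Irr → IsSimpleModule (KLRAlg D) X.M
  exists_gr : ∀ Y : SMod D, ∃ X : GMod D, X.Irr ∧ X.n = Y.n ∧ Nonempty (X.M ≃ₗ[KLRAlg D] Y.M)
  shift : ∀ X Y : GMod D, X.Irr → Y.Irr → Nonempty (X.M ≃ₗ[KLRAlg D] Y.M) → X.ShiftIso Y
  conv : ∀ X Y Z : GMod D, X.Irr → Y.Irr → Z.Irr →
    Nonempty (Conv D X.n X.M Y.M ≃ₗ[KLRAlg D] Z.M) → X.IsConv Y Z

/-- the facts on the abstract system `Y` and the map `cls` from simple modules to their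
isomorphism classes -/
structure UFacts (D : Datum K I) {S O : Type} [CommRing O] [Algebra ℚ O]
    (Y : KLRAbs.Sys I S O) (cls : SMod D → S) : Prop where
  surj : Function.Surjective cls
  inj : ∀ X Z, cls X = cls Z ↔ X.Iso Z
  mul : ∀ X Z W, Y.b (cls X) * Y.b (cls Z) = Y.b (cls W) ↔
    Nonempty (X.conv Z ≃ₗ[KLRAlg D] W.M)
  ad : ∀ w X, Y.Ad w (cls X) ↔ ∃ a : List ℕ, a.length = w.length ∧ X.ch (powWord w a) ≠ 0
  one : ∀ X, cls X = Y.one ↔ X.n = 0
  span : ∀ w, Work.MP_e487d8_al.Span.Reduced D.A w →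
    Submodule.span ℚ {v | ∃ X, Y.Ad w X ∧ Y.str w X = v} = ⊤

namespace GrFacts

variable {D : Datum K I} (hG : GrFacts D)

/-- forget the grading -/
def forget (X : GMod D) (h : X.Irr) : SMod D where
  n := X.n
  M := X.M
  smp :=
    { strand := X.strand
      fd := X.fd
      nilp := hG.nilp X
      simple := hG.simple X h }

end GrFacts

theorem GMod.irr_of_simple {D : Datum K I} (X : GMod D) (h : IsSimpleModule (KLRAlg D) X.M) :
    X.Irr where
  nontrivial := IsSimpleModule.nontrivial (KLRAlg D) X.M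
  simple N _ := by
    rw [isSimpleModule_iff] at h
    exact h.eq_bot_or_eq_top N

theorem smod_ch_ne {D : Datum K I} (X : SMod D) (ν : List I) :
    X.ch ν ≠ 0 ↔ ν.length = X.n ∧ ∃ u : X.M, D.eW ν • u ≠ 0 := by
  have := X.smp.fd
  unfold SMod.ch chr
  split_ifs with h
  · rw [Ne, Submodule.finrank_eq_zero, wordSp, LinearMap.range_eq_bot]
    constructor
    · intro h1
      refine ⟨h, ?_⟩
      by_contra h2
      push Not at h2
      exact h1 (LinearMap.ext h2)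
    · rintro ⟨-, u, hu⟩ h1
      exact hu (LinearMap.congr_fun h1 u)
  · simp [h]

namespace Bridge

open Classical in
/-- the class of a graded module -/
noncomputable def cl {D : Datum K I} (hG : GrFacts D) {S O : Type} [CommRing O] [Algebra ℚ O]
    (Y : KLRAbs.Sys I S O) (cls : SMod D → S) (X : GMod D) : S :=
  if h : X.Irr then cls (hG.forget X h) else Y.one

variable {D : Datum K I} (hG : GrFacts D) {S O : Type} [CommRing O] [Algebra ℚ O]
  {Y : KLRAbs.Sys I S O} {cls : SMod D → S}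

theorem cl_of {X : GMod D} (h : X.Irr) : cl hG Y cls X = cls (hG.forget X h) := by
  unfold cl
  rw [dif_pos h]

variable (hU : UFacts D Y cls)

include hU

theorem cl_eq_iff {X Z : GMod D} (hX : X.Irr) (hZ : Z.Irr) :
    cl hG Y cls X = cl hG Y cls Z ↔ X.ShiftIso Z := by
  rw [cl_of hG hX, cl_of hG hZ, hU.inj]
  constructor
  · intro h
    exact hG.shift X Z hX hZ h
  · rintro ⟨s, f, hf⟩
    exact ⟨f⟩

theorem cl_eq_of_iso {X Z : GMod D} (hX : X.Irr) (hZ : Z.Irr) (f : X.M ≃ₗ[KLRAlg D] Z.M) :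
    cl hG Y cls X = cl hG Y cls Z := by
  rw [cl_of hG hX, cl_of hG hZ, hU.inj]
  exact ⟨f⟩

theorem mul_iff {X Z W : GMod D} (hX : X.Irr) (hZ : Z.Irr) (hW : W.Irr) :
    Y.b (cl hG Y cls X) * Y.b (cl hG Y cls Z) = Y.b (cl hG Y cls W) ↔ X.IsConv Z W := by
  rw [cl_of hG hX, cl_of hG hZ, cl_of hG hW, hU.mul]
  constructor
  · intro h
    exact hG.conv X Z W hX hZ hW h
  · rintro ⟨s, f, hf⟩
    exact ⟨f⟩

theorem cl_surj (s : S) : ∃ X : GMod D, X.Irr ∧ cl hG Y cls X = s := by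
  obtain ⟨Z, rfl⟩ := hU.surj s
  obtain ⟨X, hX, hn, ⟨f⟩⟩ := hG.exists_gr Z
  refine ⟨X, hX, ?_⟩
  rw [cl_of hG hX, hU.inj]
  exact ⟨f⟩

theorem cl_one {X : GMod D} (hX : X.Irr) : cl hG Y cls X = Y.one ↔ X.n = 0 := by
  rw [cl_of hG hX, hU.one]
  rfl

theorem ad_iff {X : GMod D} (hX : X.Irr) (w : List I) :
    Y.Ad w (cl hG Y cls X) ↔ X.Adapted w := by
  rw [cl_of hG hX, hU.ad]
  unfold GMod.Adapted
  refine exists_congr fun a => and_congr_right fun _ => ?_
  exact smod_ch_ne (hG.forget X hX) _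

section

variable {w : List I} {L : Set (GMod D)} (hL : IsMaxFamily w L)

include hL

theorem isFam : KLRAbs.Sys.IsFam Y w (cl hG Y cls '' L) := by
  constructor
  · rintro _ ⟨X, hX, rfl⟩
    have hi := hL.irr X hX
    refine ⟨?_, (ad_iff hG hU hi w).2 (hL.adapted X hX)⟩
    rw [Ne, cl_one hG hU hi]
    have := hL.pos X hX
    omega
  · rintro _ ⟨X, hX, rfl⟩ _ ⟨Z, hZ, rfl⟩
    obtain ⟨W, hW, h⟩ := hL.conv X hX Z hZ
    exact ⟨_, ⟨W, hW, rfl⟩, (mul_iff hG hU (hL.irr X hX) (hL.irr Z hZ) (hL.irr W hW)).2 h⟩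

omit hL in
theorem isFamily_of {L' : Set S} (h : KLRAbs.Sys.IsFam Y w L') :
    IsFamily w {X : GMod D | X.Irr ∧ cl hG Y cls X ∈ L'} where
  pos X hX := by
    have h1 := (h.1 _ hX.2).1
    rw [Ne, cl_one hG hU hX.1] at h1
    omega
  irr X hX := hX.1
  adapted X hX := (ad_iff hG hU hX.1 w).1 (h.1 _ hX.2).2
  conv X hX Z hZ := by
    obtain ⟨s, hs, h1⟩ := h.2 _ hX.2 _ hZ.2
    obtain ⟨W, hW, rfl⟩ := cl_surj hG hU s
    exact ⟨W, ⟨hW, hs⟩, (mul_iff hG hU hX.1 hZ.1 hW).1 h1⟩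

omit hU in
theorem sub_of {L' : Set S} (h : cl hG Y cls '' L ⊆ L') :
    L ⊆ {X : GMod D | X.Irr ∧ cl hG Y cls X ∈ L'} :=
  fun X hX => ⟨hL.irr X hX, h ⟨X, hX, rfl⟩⟩

theorem mem_iff {X : GMod D} (hX : X.Irr) : X ∈ L ↔ cl hG Y cls X ∈ cl hG Y cls '' L := by
  have h1 := hL.max _ (isFamily_of hG hU (isFam hG hU hL)) (sub_of hG hL subset_rfl)
  constructor
  · intro h
    exact ⟨X, h, rfl⟩
  · intro h
    rw [← h1]
    exact ⟨hX, h⟩

theorem isMaxFam : KLRAbs.Sys.IsMaxFam Y w (cl hG Y cls '' L) := by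
  refine ⟨isFam hG hU hL, fun L' hL' hle => ?_⟩
  have h1 := hL.max _ (isFamily_of hG hU hL') (sub_of hG hL hle)
  refine Set.Subset.antisymm ?_ hle
  intro s hs
  obtain ⟨X, hX, rfl⟩ := cl_surj hG hU s
  refine ⟨X, ?_, rfl⟩
  rw [← h1]
  exact ⟨hX, hs⟩

theorem mem_atoms_iff {X : GMod D} (hX : X.Irr) :
    X ∈ atoms L ↔ cl hG Y cls X ∈ KLRAbs.Sys.Atoms Y (cl hG Y cls '' L) := by
  unfold atoms KLRAbs.Sys.Atoms
  rw [Set.mem_ofPred_eq, Set.mem_ofPred_eq, ← mem_iff hG hU hL hX]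
  refine and_congr_right fun _ => not_congr ?_
  constructor
  · rintro ⟨Z, hZ, W, hW, h⟩
    exact ⟨_, ⟨Z, hZ, rfl⟩, _, ⟨W, hW, rfl⟩,
      (mul_iff hG hU (hL.irr Z hZ) (hL.irr W hW) hX).2 h⟩
  · rintro ⟨_, ⟨Z, hZ, rfl⟩, _, ⟨W, hW, rfl⟩, h⟩
    exact ⟨Z, hZ, W, hW, (mul_iff hG hU (hL.irr Z hZ) (hL.irr W hW) hX).1 h⟩

/-- products of members of `L` -/
theorem of_isProd {l : List (GMod D)} {X : GMod D} (h : GMod.IsProd l X) (hl : ∀ Z ∈ l, Z ∈ L) :
    X ∈ L ∧ Y.b (cl hG Y cls X) = (l.map fun Z => Y.b (cl hG Y cls Z)).prod := by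
  induction h with
  | single X Z h =>
    have hX := hl X (List.mem_singleton_self X)
    obtain ⟨s, f, hf⟩ := id h
    have hs := hG.simple X (hL.irr X hX)
    have hZ : Z.Irr := Z.irr_of_simple (IsSimpleModule.congr f.symm)
    have h1 : cl hG Y cls X = cl hG Y cls Z := (cl_eq_iff hG hU (hL.irr X hX) hZ).2 h
    refine ⟨?_, by rw [List.map_singleton, List.prod_singleton, h1]⟩
    rw [mem_iff hG hU hL hZ, ← h1]
    exact ⟨X, hX, rfl⟩
  | cons X T Z l h h' ih =>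
    have hX := hl X List.mem_cons_self
    obtain ⟨hT, ih2⟩ := ih fun Z hZ => hl Z (List.mem_cons_of_mem _ hZ)
    obtain ⟨W, hW, hW'⟩ := hL.conv X hX T hT
    obtain ⟨s, f, hf⟩ := id h'
    obtain ⟨s', f', hf'⟩ := id hW'
    have hs := hG.simple W (hL.irr W hW)
    have hZ : Z.Irr := Z.irr_of_simple (IsSimpleModule.congr (f.symm.trans f'))
    have h1 : cl hG Y cls W = cl hG Y cls Z :=
      cl_eq_of_iso hG hU (hL.irr W hW) hZ (f'.symm.trans f)
    refine ⟨?_, ?_⟩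
    · rw [mem_iff hG hU hL hZ, ← h1]
      exact ⟨W, hW, rfl⟩
    · rw [List.map_cons, List.prod_cons, ← ih2]
      exact ((mul_iff hG hU (hL.irr X hX) (hL.irr T hT) hZ).2 h').symm

theorem exists_prod {l : List (GMod D)} (hl0 : l ≠ []) (hl : ∀ Z ∈ l, Z ∈ L) :
    ∃ X ∈ L, GMod.IsProd l X ∧
      Y.b (cl hG Y cls X) = (l.map fun Z => Y.b (cl hG Y cls Z)).prod := by
  induction l with
  | nil => exact absurd rfl hl0
  | cons A l ih =>
    have hA := hl A List.mem_cons_self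
    by_cases h0 : l = []
    · subst h0
      refine ⟨A, hA, GMod.IsProd.single A A ⟨0, LinearEquiv.refl _ _, fun d u hu => ?_⟩, ?_⟩
      · rw [add_zero]
        exact hu
      · rw [List.map_singleton, List.prod_singleton]
    · obtain ⟨X, hX, h1, h2⟩ := ih h0 fun Z hZ => hl Z (List.mem_cons_of_mem _ hZ)
      obtain ⟨Z, hZ, hZ'⟩ := hL.conv A hA X hX
      refine ⟨Z, hZ, GMod.IsProd.cons A X Z l h1 hZ', ?_⟩
      rw [List.map_cons, List.prod_cons, ← h2]
      exact ((mul_iff hG hU (hL.irr A hA) (hL.irr X hX) (hL.irr Z hZ)).2 hZ').symm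

theorem isProd_of {l : List (GMod D)} {X : GMod D} (hX : X.Irr) (hl0 : l ≠ [])
    (hl : ∀ Z ∈ l, Z ∈ L)
    (h : Y.b (cl hG Y cls X) = (l.map fun Z => Y.b (cl hG Y cls Z)).prod) :
    GMod.IsProd l X := by
  cases l with
  | nil => exact absurd rfl hl0
  | cons A l =>
    have hA := hl A List.mem_cons_self
    by_cases h0 : l = []
    · subst h0
      rw [List.map_singleton, List.prod_singleton] at h
      exact GMod.IsProd.single A X ((cl_eq_iff hG hU (hL.irr A hA) hX).1 (Y.b.injective h.symm))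
    · obtain ⟨Z, hZ, h1, h2⟩ := exists_prod hG hU hL h0
        fun Z hZ => hl Z (List.mem_cons_of_mem _ hZ)
      refine GMod.IsProd.cons A Z X l h1 ?_
      rw [List.map_cons, List.prod_cons, ← h2] at h
      exact (mul_iff hG hU (hL.irr A hA) (hL.irr Z hZ) hX).1 h.symm

end

omit hU [Fintype I] [DecidableEq I] in
theorem reduced_suffix {A : I → I → ℤ} {j w : List I} (h : j <:+ w)
    (hw : Work.MP_e487d8_al.Span.Reduced A w) : Work.MP_e487d8_al.Span.Reduced A j := by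
  obtain ⟨t, rfl⟩ := h
  induction t with
  | nil => exact hw
  | cons i t ih => exact ih (Work.MP_e487d8_al.Span.reduced_tail hw)

include hG in
theorem main [IsDomain O] [UniqueFactorizationMonoid O] : S_final D := by
  classical
  intro w hw L hL
  have hspan : ∀ j, j <:+ w → Submodule.span ℚ {v | ∃ X, Y.Ad j X ∧ Y.str j X = v} = ⊤ := by
    intro j hj
    exact hU.span j (reduced_suffix hj hw)
  obtain ⟨hfin, hcard, hgen, hmin, huniq⟩ := KLRAbs.Sys.final Y w hspan _ (isMaxFam hG hU hL)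
  choose sec hsec1 hsec2 using cl_surj hG hU
  have hinj : Function.Injective sec := fun s t h => by rw [← hsec2 s, ← hsec2 t, h]
  set L0 := cl hG Y cls '' L with hL0
  set P : Set (GMod D) := sec '' (KLRAbs.Sys.Atoms Y L0) with hP
  have hPfin : P.Finite := hfin.image sec
  have hPcard : P.ncard = w.length := by
    rw [hP, Set.ncard_image_of_injective _ hinj, hcard]
  have hPat : P ⊆ atoms L := by
    rintro _ ⟨s, hs, rfl⟩
    rw [mem_atoms_iff hG hU hL (hsec1 s), hsec2 s]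
    exact hs
  have hPL : ∀ X ∈ P, X ∈ L := fun X hX => (hPat hX).1
  have hsc : ∀ X ∈ P, sec (cl hG Y cls X) = X := by
    rintro _ ⟨s, hs, rfl⟩
    rw [hsec2]
  have hgenP : Generates P L := by
    intro X hX
    obtain ⟨s, hs0, hs1, hs2⟩ := hgen _ ⟨X, hX, rfl⟩
    have hmem : ∀ Z ∈ s.toList.map sec, Z ∈ P := by
      intro Z hZ
      obtain ⟨t, ht, rfl⟩ := List.mem_map.1 hZ
      exact ⟨t, hs1 t (Multiset.mem_toList.1 ht), rfl⟩
    refine ⟨s.toList.map sec, hmem, isProd_of hG hU hL (hL.irr X hX) ?_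
      (fun Z hZ => hPL Z (hmem Z hZ)) ?_⟩
    · intro h
      apply hs0
      rw [List.map_eq_nil_iff] at h
      exact Multiset.toList_eq_nil.1 h
    · rw [List.map_map, ← hs2]
      have h1 : (fun Z => Y.b (cl hG Y cls Z)) ∘ sec = Y.b := by
        funext t
        rw [Function.comp_apply, hsec2]
      rw [h1]
      conv_lhs => rw [← Multiset.coe_toList s]
      rw [Multiset.map_coe, Multiset.prod_coe]
  have hminP : ∀ Q, Q ⊆ P → Generates Q L → Q = P := by
    intro Q hQ hgQ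
    refine Set.Subset.antisymm hQ ?_
    have h1 : KLRAbs.Sys.Generates Y L0 (cl hG Y cls '' Q) := by
      rintro _ ⟨X, hX, rfl⟩
      obtain ⟨l, hl, hp⟩ := hgQ X hX
      refine ⟨((l.map (cl hG Y cls) : List S) : Multiset S), ?_, ?_, ?_⟩
      · intro h
        rw [Multiset.coe_eq_zero, List.map_eq_nil_iff] at h
        subst h
        cases hp
      · intro s hs
        rw [Multiset.mem_coe, List.mem_map] at hs
        obtain ⟨Z, hZ, rfl⟩ := hs
        exact ⟨Z, hl Z hZ, rfl⟩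
      · rw [(of_isProd hG hU hL hp fun Z hZ => hPL Z (hQ (hl Z hZ))).2, Multiset.map_coe,
          Multiset.prod_coe, List.map_map]
        rfl
    have h2 := hmin _ (fun s hs => by
      obtain ⟨Z, hZ, rfl⟩ := hs
      exact ⟨Z, hPL Z (hQ hZ), rfl⟩) h1
    rintro _ ⟨s, hs, rfl⟩
    obtain ⟨Z, hZ, rfl⟩ := h2 hs
    rw [hsc Z (hQ hZ)]
    exact hZ
  refine ⟨⟨P, hPfin, hPcard, hPat, hgenP, hminP⟩, P, hPfin, hPcard, ?_⟩
  refine ⟨hPat, ?_, hgenP, ?_, ?_⟩
  · intro X hX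
    have hXi := hL.irr X hX.1
    have h1 := (mem_atoms_iff hG hU hL hXi).1 hX
    refine ⟨sec (cl hG Y cls X), ⟨⟨_, h1, rfl⟩, ?_⟩, ?_⟩
    · rw [← cl_eq_iff hG hU hXi (hsec1 _), hsec2]
    · rintro Z ⟨⟨s, hs, rfl⟩, h2⟩
      rw [← cl_eq_iff hG hU hXi (hsec1 _), hsec2] at h2
      rw [h2]
  · intro X l l' hl hl' hp hp'
    have h1 := (of_isProd hG hU hL hp fun Z hZ => hPL Z (hl Z hZ)).2
    have h2 := (of_isProd hG hU hL hp' fun Z hZ => hPL Z (hl' Z hZ)).2
    have h3 := huniq ((l.map (cl hG Y cls) : List S) : Multiset S)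
      ((l'.map (cl hG Y cls) : List S) : Multiset S) ?_ ?_ ?_
    · rw [Multiset.coe_eq_coe] at h3
      have h4 := h3.map sec
      rw [List.map_map, List.map_map] at h4
      have h5 : ∀ l : List (GMod D), (∀ Z ∈ l, Z ∈ P) → l.map (sec ∘ cl hG Y cls) = l := by
        intro l hl
        conv_rhs => rw [← List.map_id l]
        exact List.map_congr_left fun Z hZ => hsc Z (hl Z hZ)
      rwa [h5 l hl, h5 l' hl'] at h4
    · intro s hs
      rw [Multiset.mem_coe, List.mem_map] at hs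
      obtain ⟨Z, hZ, rfl⟩ := hs
      exact (mem_atoms_iff hG hU hL (hL.irr Z (hPL Z (hl Z hZ)))).1 (hPat (hl Z hZ))
    · intro s hs
      rw [Multiset.mem_coe, List.mem_map] at hs
      obtain ⟨Z, hZ, rfl⟩ := hs
      exact (mem_atoms_iff hG hU hL (hL.irr Z (hPL Z (hl' Z hZ)))).1 (hPat (hl' Z hZ))
    · rw [Multiset.map_coe, Multiset.map_coe, Multiset.prod_coe, Multiset.prod_coe, List.map_map,
        List.map_map]
      exact h1.symm.trans h2
  · intro l hl0 hl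
    obtain ⟨X, hX, h1, _⟩ := exists_prod hG hU hL hl0 fun Z hZ => hPL Z (hl Z hZ)
    exact ⟨X, hX, h1⟩

end Bridge

end Pool.Agent.KLR
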