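import Pool.Agent.Work.MP_e487d8_al.Fin.Main
import Pool.Agent.Work.MP_e487d8_al.Fin.Bridge
import Pool.Agent.Work.MP_e487d8_al.Mod.Fd

/-! MP_e487d8_al, block Fin: the contract `UFacts` of `Fin/Bridge.lean`, and the final theorem from
the contracts. -/

set_option autoImplicit false

open Pool.Agent.E487.Hopf Pool.Agent.Work.MP_e487d8_al

namespace Pool.Agent.KLR

variable {K I : Type} [Field K] [Fintype I] [DecidableEq I] {D : Datum K I}

namespace Sm

omit [Fintype I] [DecidableEq I] in
theorem frm_iff : ∀ (w ν : List I), Frm w ν ↔ ∃ a : List ℕ, a.length = w.length ∧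
    ν = powWord w a := by
  intro w
  induction w with
  | nil =>
    intro ν
    constructor
    · intro h
      exact ⟨[], rfl, h⟩
    · rintro ⟨a, ha, rfl⟩
      rfl
  | cons i w ih =>
    intro ν
    constructor
    · rintro ⟨b, ν', rfl, h⟩
      obtain ⟨a, ha, rfl⟩ := (ih ν').1 h
      exact ⟨b :: a, by rw [List.length_cons, List.length_cons, ha], rfl⟩
    · rintro ⟨a, ha, rfl⟩
      cases a with
      | nil => simp at ha
      | cons b a =>
        rw [List.length_cons, List.length_cons] at ha
        exact ⟨b, powWord w a, rfl, (ih _).2 ⟨a, by omega, rfl⟩⟩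

theorem chq_of_iso' (hconv : S_conv D) {X Y Z : SMod D}
    (h : Nonempty (X.conv Y ≃ₗ[KLRAlg D] Z.M)) : X.chq * Y.chq = Z.chq := by
  obtain ⟨g⟩ := h
  rw [← chrQ_conv hconv]
  have hn : Z.n = X.n + Y.n := quo_strand (fd_conv hconv X Y) ⟨g.toLinearMap, g.surjective⟩
  have := (fd_conv hconv X Y).fd
  apply Sh.ext'
  intro w
  rw [chrQ_apply, chr_congr g, ← hn]
  rfl

variable {Lp : I → ℕ → SMod D} (hC : CFacts D Lp) (hconv : S_conv D)
  {s s' : SMod D → SMod D → ℕ} (hR : RFacts D s s') (hG : GFacts D s s') (hL : LFacts D s s')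

include hL in
theorem uFacts : UFacts D (sys hC hconv hR hG) cls where
  surj X := ⟨X.rep, cls_rep X⟩
  inj X Z := by
    constructor
    · intro h
      exact iso_rep hC (congrArg Subtype.val h)
    · intro h
      exact Subtype.ext (SMod.ch_iso h)
  mul X Z W := by
    have h1 : (sys hC hconv hR hG).b = bas hC hconv := rfl
    rw [h1, gr_mul_iff]
    exact ⟨fun h => iso_conv' hC hconv h, fun h => chq_of_iso' hconv h⟩
  ad w X := by
    have h1 := ad_iff hC hconv w (cls X)
    refine h1.trans ?_
    constructor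
    · rintro ⟨ν, h2, h3⟩
      obtain ⟨a, ha, rfl⟩ := (frm_iff w ν).1 h2
      exact ⟨a, ha, h3⟩
    · rintro ⟨a, ha, h3⟩
      exact ⟨powWord w a, (frm_iff w _).2 ⟨a, ha, rfl⟩, h3⟩
  one X := by
    have h1 : (sys hC hconv hR hG).one = one D := rfl
    rw [h1]
    have h2 : X.n = (cls X).len := SMod.n_eq_of_ch (ch_rep_cls X).symm
    rw [h2]
    constructor
    · intro h
      rw [h]
      exact len_one
    · intro h
      exact eq_one_of_len h
  span w hw := hspan hC hconv hR hG hL hw w (List.suffix_refl w)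

end Sm

/-- the final theorem from the contracts -/
theorem S_final_of {Lp : I → ℕ → SMod D} (hC : CFacts D Lp) (hb : S_basis D)
    {s s' : SMod D → SMod D → ℕ} (hR : RFacts D s s') (hG : GFacts D s s') (hL : LFacts D s s')
    (hGr : GrFacts D) : S_final D := by
  have hconv : S_conv D := fun m n M N _ _ _ _ _ _ _ _ hM hN => Conv.fdMod_chrQ hb hM hN
  have := Sm.isDomain_Gr hC hconv
  have := Sm.ufd_Gr hC hconv
  exact Bridge.main hGr (Sm.uFacts hC hconv hR hG hL)

end Pool.Agent.KLR
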