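import Pool.Agent.Work.MP_e487d8_al.Fin.Inst
import Pool.Agent.Work.MP_e487d8_al.Span.Main
import Pool.Agent.Work.MP_e487d8_al.Abs.Main

/-! MP_e487d8_al, block Fin: the crystal of the simple modules of a KLR algebra, the strings of the
adapted simple modules span. -/

set_option autoImplicit false

open Pool.Agent.E487.Hopf Pool.Agent.Work.MP_e487d8_al

namespace Pool.Agent.KLR

variable {K I : Type} [Field K] [Fintype I] [DecidableEq I] {D : Datum K I}

/-- the concatenation of a word of `X` and a word of `N` is a word of every quotient of `X ∘ N` -/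
theorem append_of_quo (hconv : S_conv D) {X N Z : SMod D} (h : Quo D Z.M (X.conv N)) {μ ν : List I}
    (hμ : X.ch μ ≠ 0) (hν : N.ch ν ≠ 0) : Z.ch (μ ++ ν) ≠ 0 := by
  obtain ⟨g, hg⟩ := h
  have hlμ := X.ch_length hμ
  have hlν := N.ch_length hν
  have hsX := X.smp.simple
  have hsN := N.smp.simple
  have hsZ := Z.smp.simple
  have key : ∀ u : X.M, u ≠ 0 → ∀ v : N.M, g (Conv.mk D X.n X.M N.M u v) = 0 → v = 0 := by
    intro u hu v hv
    by_contra hv0
    -- the kernel for fixed `u`
    let P : Submodule (KLRAlg D) N.M :=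
      { carrier := {v | g (Conv.mk D X.n X.M N.M u v) = 0}
        add_mem' := by
          intro a b ha hb
          rw [Set.mem_ofPred_eq] at ha hb ⊢
          rw [map_add, map_add, ha, hb, add_zero]
        zero_mem' := by
          rw [Set.mem_ofPred_eq, map_zero, map_zero]
        smul_mem' := by
          intro a b hb
          rw [Set.mem_ofPred_eq] at hb ⊢
          rw [← Conv.shn_smul_mk, map_smul, hb, smul_zero] }
    have hP : P = ⊤ := by
      rcases eq_bot_or_eq_top P with h1 | h1
      · exfalso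
        have h2 : v ∈ P := hv
        rw [h1, Submodule.mem_bot] at h2
        exact hv0 h2
      · exact h1
    -- the kernel for all `v`
    let Q : Submodule (KLRAlg D) X.M :=
      { carrier := {u | ∀ v, g (Conv.mk D X.n X.M N.M u v) = 0}
        add_mem' := by
          intro a b ha hb
          rw [Set.mem_ofPred_eq] at ha hb ⊢
          intro v
          rw [map_add, LinearMap.add_apply, map_add, ha, hb, add_zero]
        zero_mem' := by
          rw [Set.mem_ofPred_eq]
          intro v
          rw [map_zero, LinearMap.zero_apply, map_zero]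
        smul_mem' := by
          intro a b hb
          rw [Set.mem_ofPred_eq] at hb ⊢
          intro v
          rw [← Conv.tr_smul_mk, map_smul, hb, smul_zero] }
    have hQ : Q = ⊤ := by
      rcases eq_bot_or_eq_top Q with h1 | h1
      · exfalso
        have h2 : u ∈ Q := by
          intro v
          have h3 : v ∈ P := by rw [hP]; trivial
          exact h3
        rw [h1, Submodule.mem_bot] at h2
        exact hu h2
      · exact h1
    have hg0 : g = 0 := by
      apply Conv.hom_ext
      intro u v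
      have h3 : u ∈ Q := by rw [hQ]; trivial
      rw [LinearMap.zero_apply]
      exact h3 v
    have := IsSimpleModule.nontrivial (KLRAlg D) Z.M
    obtain ⟨z, hz⟩ := exists_ne (0 : Z.M)
    obtain ⟨y, hy⟩ := hg z
    rw [hg0] at hy
    exact hz hy.symm
  obtain ⟨u, hu⟩ := (chr_ne_zero_iff hlμ).1 hμ
  obtain ⟨v, hv⟩ := (chr_ne_zero_iff hlν).1 hν
  have hn : Z.n = X.n + N.n := quo_strand (Sm.fd_conv hconv X N) ⟨g, hg⟩
  have hl : (μ ++ ν).length = Z.n := by rw [List.length_append, hlμ, hlν, hn]
  refine (chr_ne_zero_iff hl).2 ⟨g (Conv.mk D X.n X.M N.M (D.eW μ • u) (D.eW ν • v)), ?_⟩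
  have e1 : D.eW (μ ++ ν) • g (Conv.mk D X.n X.M N.M (D.eW μ • u) (D.eW ν • v)) =
      g (Conv.mk D X.n X.M N.M (D.eW μ • u) (D.eW ν • v)) := by
    rw [← map_smul, D.eW_append, mul_smul, hlμ, Conv.shn_smul_mk, ← mul_smul, D.eW_idem,
      ← D.tr_eW (m := X.n) μ hlμ.le, Conv.tr_smul_mk, D.tr_eW (m := X.n) μ hlμ.le, ← mul_smul,
      D.eW_idem]
  rw [e1]
  intro h0
  exact hv (key _ hu _ h0)

namespace Sm

variable {Lp : I → ℕ → SMod D} (hC : CFacts D Lp) (hconv : S_conv D)
  {s s' : SMod D → SMod D → ℕ} (hR : RFacts D s s') (hG : GFacts D s s') (hL : LFacts D s s')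

/-- `ε*_i` -/
noncomputable def epss (i : I) (X : Sm D) : ℕ :=
  open Classical in Nat.findGreatest (fun a => ∃ ν, X.1 (ν ++ List.replicate a i) ≠ 0) X.len

theorem le_epss {i : I} {X : Sm D} {a : ℕ} {ν : List I}
    (h : X.1 (ν ++ List.replicate a i) ≠ 0) : a ≤ epss i X := by
  classical
  have hl := length_of_ne h
  rw [List.length_append, List.length_replicate] at hl
  exact Nat.le_findGreatest (by omega) ⟨ν, h⟩

theorem exists_epss (i : I) (X : Sm D) :
    ∃ ν, X.1 (ν ++ List.replicate (epss i X) i) ≠ 0 := by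
  classical
  obtain ⟨ν, hν⟩ := X.exists_ne
  have h := Nat.findGreatest_spec (P := fun a => ∃ ν, X.1 (ν ++ List.replicate a i) ≠ 0)
    (n := X.len) (m := 0) (Nat.zero_le _) ⟨ν, by simpa using hν⟩
  unfold epss
  convert h

/-- `f_i` -/
noncomputable def f (i : I) (X : Sm D) : Sm D :=
  (eps_surj hC hconv i (eps hC i X + 1) (eps_E hC i X)).choose

theorem f_spec (i : I) (X : Sm D) :
    eps hC i (f hC hconv i X) = eps hC i X + 1 ∧ E hC i (f hC hconv i X) = E hC i X :=
  (eps_surj hC hconv i (eps hC i X + 1) (eps_E hC i X)).choose_spec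

/-- `e_i` -/
noncomputable def e (i : I) (X : Sm D) : Sm D :=
  (eps_surj hC hconv i (eps hC i X - 1) (eps_E hC i X)).choose

theorem e_spec (i : I) (X : Sm D) :
    eps hC i (e hC hconv i X) = eps hC i X - 1 ∧ E hC i (e hC hconv i X) = E hC i X :=
  (eps_surj hC hconv i (eps hC i X - 1) (eps_E hC i X)).choose_spec

theorem f_e {i : I} {X : Sm D} (h : 0 < eps hC i X) : f hC hconv i (e hC hconv i X) = X := by
  obtain ⟨h1, h2⟩ := f_spec hC hconv i (e hC hconv i X)
  obtain ⟨h3, h4⟩ := e_spec hC hconv i X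
  exact eps_inj hC (by rw [h1, h3]; omega) (h2.trans h4)

theorem e_f (i : I) (X : Sm D) : e hC hconv i (f hC hconv i X) = X := by
  obtain ⟨h1, h2⟩ := f_spec hC hconv i X
  obtain ⟨h3, h4⟩ := e_spec hC hconv i (f hC hconv i X)
  exact eps_inj hC (by rw [h3, h1]; omega) (h4.trans h2)

theorem wt_f (i : I) (X : Sm D) : wt (f hC hconv i X) = wt X + Finsupp.single i 1 := by
  obtain ⟨h1, h2⟩ := f_spec hC hconv i X
  rw [wt_E hC i (f hC hconv i X), wt_E hC i X, h1, h2, Finsupp.single_add, add_assoc]

/-- `f_i X` is the head of `L(i) ∘ X` -/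
theorem f_quo (i : I) (X : Sm D) :
    Quo D (f hC hconv i X).rep.M ((lt Lp i).rep.conv X.rep) := by
  have := conv_nontrivial hconv (lt Lp i).rep X.rep
  obtain ⟨Z, _, hZ⟩ := exists_quo (fd_conv hconv (lt Lp i).rep X.rep)
  have h1 : Quo D (cls Z).rep.M ((Lp i 1).conv X.rep) :=
    SMod.quo_congr (iso_rep hC (ch_rep_cls (Lp i 1))) (SMod.Iso.refl _)
      (iso_rep hC (ch_rep_cls Z)).symm hZ
  obtain ⟨h2, h3⟩ := head_lt hC h1
  obtain ⟨h4, h5⟩ := f_spec hC hconv i X
  have h6 : f hC hconv i X = cls Z := eps_inj hC (h4.trans h2.symm) (h5.trans h3.symm)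
  rw [h6]
  exact quo_congr' (iso_rep hC (ch_rep_cls Z)).symm hZ

theorem sh_f {i : I} {X : Sm D} {w : List I} (h : (f hC hconv i X).1 w ≠ 0) :
    ∃ v, IsSh w [i] v ∧ X.1 v ≠ 0 := by
  rw [← (f hC hconv i X).ch_rep] at h
  obtain ⟨u, v, h1, h2, h3⟩ := sh_of_subQ hconv (subQ_of_quo (f_quo hC hconv i X)) h
  rw [ch_rep, lt_apply hC] at h2
  have h4 : u = [i] := by
    by_contra h4
    exact h2 (if_neg h4)
  rw [h4] at h1
  rw [ch_rep] at h3
  exact ⟨v, h1, h3⟩

theorem cons_f {i : I} {X : Sm D} {w : List I} (h : X.1 w ≠ 0) :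
    (f hC hconv i X).1 (i :: w) ≠ 0 := by
  have h1 := append_of_quo hconv (f_quo hC hconv i X) (μ := [i]) (ν := w)
    (by rw [ch_rep, lt_apply hC]; simp) (by rw [ch_rep]; exact h)
  rw [ch_rep] at h1
  exact h1

theorem epss_f_aux (i j : I) (X : Sm D) :
    epss j (f hC hconv i X) ≤ epss j X + if i = j then 1 else 0 := by
  obtain ⟨ν, hν⟩ := exists_epss j (f hC hconv i X)
  set b := epss j (f hC hconv i X) with hb
  obtain ⟨v, h1, h2⟩ := sh_f hC hconv hν
  have h3 := h1.reverse
  rw [List.reverse_append, List.reverse_replicate] at h3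
  obtain ⟨p, q, u', v', h4, h5, h6, _⟩ := h3.of_replicate
  have h7 : v = v'.reverse ++ List.replicate q j := by
    rw [← List.reverse_reverse v, h6, List.reverse_append, List.reverse_replicate]
  rw [h7] at h2
  have h8 := le_epss h2
  have h9 : p ≤ if i = j then 1 else 0 := by
    rw [List.reverse_singleton] at h5
    have hl := congrArg List.length h5
    rw [List.length_append, List.length_replicate, List.length_singleton] at hl
    rcases Nat.eq_zero_or_pos p with hp | hp
    · rw [hp]; exact Nat.zero_le _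
    · have hp1 : p = 1 := by omega
      subst hp1
      rw [List.replicate_one, List.singleton_append, List.cons.injEq] at h5
      rw [if_pos h5.1]
  omega

theorem epss_e {i : I} (j : I) {X : Sm D} (h : 0 < eps hC i X) :
    epss j (e hC hconv i X) ≤ epss j X := by
  obtain ⟨ν, hν⟩ := exists_epss j (e hC hconv i X)
  have h1 := cons_f hC hconv (i := i) hν
  rw [f_e hC hconv h, ← List.cons_append] at h1
  exact le_epss h1

include hC in
theorem wt_lt (i j : I) : wt (lt Lp i) j = if i = j then 1 else 0 := by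
  have h : (lt Lp i).1 [i] ≠ 0 := by rw [lt_apply hC]; simp
  rw [← count_eq h, List.count_singleton]
  by_cases hij : i = j
  · rw [if_pos hij, if_pos (by simpa using hij)]
  · rw [if_neg hij, if_neg (by simpa using hij)]

include hC hconv in
theorem real_lt (i : I) : (lt Lp i).rep.Real :=
  (comm_rep_iff hC hconv _ _).2 (lt_real hC i)

/-- `(α_i, wt X)` -/
noncomputable def pr (i : I) (X : Sm D) : ℤ := ∑ j, D.A i j * (wt X j : ℤ)

include hC in
theorem dd_lt (i : I) (X : Sm D) :
    (SMod.dd (lt Lp i).rep X.rep : ℤ) = 2 * (wt X i : ℤ) - pr i X := by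
  have h1 : SMod.dd (lt Lp i).rep X.rep = ∑ j, if i = j then 0 else D.q i j * wt X j := by
    unfold SMod.dd
    rw [Finset.sum_eq_single i]
    · refine Finset.sum_congr rfl fun j _ => ?_
      by_cases hij : i = j
      · rw [if_pos hij, if_pos hij]
      · rw [if_neg hij, if_neg hij, ← wt_apply, ← wt_apply, wt_lt hC, if_pos rfl, mul_one]
    · intro k _ hk
      refine Finset.sum_eq_zero fun j _ => ?_
      by_cases hkj : k = j
      · rw [if_pos hkj]
      · rw [if_neg hkj, ← wt_apply, wt_lt hC, if_neg (Ne.symm hk), mul_zero, zero_mul]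
    · intro h
      exact absurd (Finset.mem_univ _) h
  have h2 : pr i X = 2 * (wt X i : ℤ) + ∑ j, if i = j then 0 else D.A i j * (wt X j : ℤ) := by
    have h3 : (2 * (wt X i : ℤ)) = ∑ j, if i = j then D.A i j * (wt X j : ℤ) else 0 := by
      rw [Finset.sum_ite_eq Finset.univ i, if_pos (Finset.mem_univ _), D.diag]
    rw [h3, ← Finset.sum_add_distrib]
    refine Finset.sum_congr rfl fun j _ => ?_
    split_ifs <;> ring
  rw [h1, h2]
  push_cast
  have h3 : (∑ j, if i = j then (0 : ℤ) else (D.q i j : ℤ) * (wt X j : ℤ)) =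
      - ∑ j, if i = j then 0 else D.A i j * (wt X j : ℤ) := by
    rw [← Finset.sum_neg_distrib]
    refine Finset.sum_congr rfl fun j _ => ?_
    split_ifs with hij
    · ring
    · have h4 : (D.q i j : ℤ) = - D.A i j := by
        unfold Datum.q
        have := D.nonpos i j hij
        omega
      rw [h4]
      ring
  rw [h3]
  ring

include hC hL in
theorem s_lt (i : I) (X : Sm D) : s (lt Lp i).rep X.rep + eps hC i X = wt X i := by
  obtain ⟨ν, hν, _⟩ := exists_eps hC i X
  refine hL.eps i (lt Lp i).rep X.rep (eps hC i X) ν ?_ ?_ ?_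
  · rw [ch_rep, lt_apply hC]; simp
  · rw [ch_rep]; exact hν
  · intro ν
    rw [ch_rep]
    exact ch_zero hC i X (Nat.lt_succ_self _) ν

include hC hL in
theorem s'_lt (i : I) (X : Sm D) : s' (lt Lp i).rep X.rep + epss i X = wt X i := by
  obtain ⟨ν, hν⟩ := exists_epss i X
  refine hL.eps' i (lt Lp i).rep X.rep (epss i X) ν ?_ ?_ ?_
  · rw [ch_rep, lt_apply hC]; simp
  · rw [ch_rep]; exact hν
  · intro ν
    rw [ch_rep]
    by_contra h
    have := le_epss h
    omega

include hconv hR hL in
theorem d_nonneg (i : I) (X : Sm D) : pr i X ≤ (eps hC i X : ℤ) + epss i X := by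
  have h1 := hR.le (lt Lp i).rep X.rep (real_lt hC hconv i)
  have h2 := dd_lt hC i X
  have h3 := s_lt hC hL i X
  have h4 := s'_lt hC hL i X
  have h1' : (s (lt Lp i).rep X.rep : ℤ) + s' (lt Lp i).rep X.rep ≤
    SMod.dd (lt Lp i).rep X.rep := by exact_mod_cast h1
  have h3' : (s (lt Lp i).rep X.rep : ℤ) + eps hC i X = wt X i := by exact_mod_cast h3
  have h4' : (s' (lt Lp i).rep X.rep : ℤ) + epss i X = wt X i := by exact_mod_cast h4
  linarith

include hR hG hL in
theorem epss_f_lt (i : I) (X : Sm D) (h : pr i X < (eps hC i X : ℤ) + epss i X) :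
    epss i (f hC hconv i X) ≤ epss i X := by
  have hr := real_lt hC hconv i
  have h2 := dd_lt hC i X
  have h3 := s_lt hC hL i X
  have h4 := s'_lt hC hL i X
  have h3' : (s (lt Lp i).rep X.rep : ℤ) + eps hC i X = wt X i := by exact_mod_cast h3
  have h4' : (s' (lt Lp i).rep X.rep : ℤ) + epss i X = wt X i := by exact_mod_cast h4
  have hnc : ¬ (lt Lp i).rep.Comm X.rep := by
    intro hc
    have h1 := hR.comm (lt Lp i).rep X.rep hr hc
    have h1' : (s (lt Lp i).rep X.rep : ℤ) + s' (lt Lp i).rep X.rep =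
      SMod.dd (lt Lp i).rep X.rep := by exact_mod_cast h1
    linarith
  have hne : f hC hconv i X ≠ nab' hR (lt Lp i) X := by
    intro he
    have h5 := nab'_quo hC hR hr X
    rw [← he] at h5
    exact hnc (hR.simple _ _ _ hr (f_quo hC hconv i X) h5)
  have hco : co hC hconv (lt Lp i) X (f hC hconv i X) ≠ 0 := by
    have h5 := mult_ne_of_quo hC (fd_conv hconv (lt Lp i).rep X.rep) (f_quo hC hconv i X)
    rw [cls_rep] at h5
    exact h5
  have h5 := (nab'_spec hC hconv hR hG hr X).2.2 _ hco hne
  unfold Lam at h5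
  rw [dd_co hC hconv _ hco] at h5
  have h6 : (SMod.dd (lt Lp i).rep (lt Lp i).rep : ℤ) = 0 := by
    rw [dd_lt hC]
    have h7 : pr i (lt Lp i) = 2 := by
      unfold pr
      have h8 : ∀ j, D.A i j * (wt (lt Lp i) j : ℤ) = if i = j then D.A i j else 0 := by
        intro j
        rw [wt_lt hC]
        split_ifs <;> simp
      rw [Finset.sum_congr rfl fun j _ => h8 j, Finset.sum_ite_eq Finset.univ i,
        if_pos (Finset.mem_univ _), D.diag]
    rw [h7, wt_lt hC, if_pos rfl]
    norm_num
  have h7 := s'_lt hC hL i (f hC hconv i X)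
  have h7' : (s' (lt Lp i).rep (f hC hconv i X).rep : ℤ) + epss i (f hC hconv i X) =
    wt (f hC hconv i X) i := by exact_mod_cast h7
  have h8 : (wt (f hC hconv i X) i : ℤ) = wt X i + 1 := by
    rw [wt_f, Finsupp.add_apply, Finsupp.single_eq_same]
    push_cast
    ring
  push_cast at h5
  have h9 : (epss i (f hC hconv i X) : ℤ) < epss i X + 1 := by linarith
  have h10 : epss i (f hC hconv i X) < epss i X + 1 := by exact_mod_cast h9
  omega

/-- the weight as an element of the root lattice -/
noncomputable def wtz (X : Sm D) : I →₀ ℤ := (wt X).mapRange (fun n : ℕ => (n : ℤ)) Nat.cast_zero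

theorem wtz_apply (X : Sm D) (j : I) : wtz X j = (wt X j : ℤ) := rfl

theorem pair_wtz (i : I) (X : Sm D) : Span.pair D.A i (wtz X) = pr i X := by
  unfold Span.pair pr
  rw [Finsupp.sum_fintype _ _ (fun j => by ring)]
  refine Finset.sum_congr rfl fun j _ => ?_
  rw [wtz_apply]
  ring

theorem epss_one (i : I) : epss i (one D) = 0 := by
  obtain ⟨ν, hν⟩ := exists_epss i (one D)
  have h1 := length_of_ne hν
  rw [List.length_append, List.length_replicate, len_one] at h1
  omega

/-- the crystal -/
noncomputable def crys : Span.CrysData I D.A where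
  S := Sm D
  one := one D
  wt := wtz
  eps := eps hC
  epss := epss
  f := f hC hconv
  e := e hC hconv
  wt_one := by
    ext j
    rw [wtz_apply, wt_one]
    rfl
  wt_nonneg X := by
    intro j
    rw [wtz_apply]
    exact Int.natCast_nonneg _
  epss_one := epss_one
  wt_f i X := by
    ext j
    rw [Finsupp.add_apply, wtz_apply, wtz_apply, wt_f, Finsupp.add_apply, Span.al,
      Finsupp.single_apply, Finsupp.single_apply]
    push_cast
    rfl
  f_e i X h := f_e hC hconv h
  eps_f i X := (f_spec hC hconv i X).1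
  e_f i X := e_f hC hconv i X
  epss_f i X := by
    have h := epss_f_aux hC hconv i i X
    rwa [if_pos rfl] at h
  epss_f_ne i j X h := by
    have h' := epss_f_aux hC hconv i j X
    rwa [if_neg h, add_zero] at h'
  epss_e i j X h := epss_e hC hconv j h
  d_nonneg i X := by
    rw [pair_wtz]
    exact d_nonneg hC hconv hR hL i X
  epss_f_lt i X h := by
    rw [pair_wtz] at h
    exact epss_f_lt hC hconv hR hG hL i X h

omit [Fintype I] [DecidableEq I] in
theorem symGCM (D : Datum K I) : Span.SymGCM D.A where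
  diag := D.diag
  symm := D.symm
  off := D.nonpos

theorem emax_eq (i : I) : ∀ (n : ℕ) (X : Sm D), eps hC i X = n →
    (e hC hconv i)^[n] X = E hC i X := by
  intro n
  induction n with
  | zero =>
    intro X h
    exact (E_of_eps hC h).symm
  | succ n ih =>
    intro X h
    obtain ⟨h1, h2⟩ := e_spec hC hconv i X
    rw [Function.iterate_succ_apply, ih _ (by rw [h1, h]; rfl), h2]

theorem crys_emax (i : I) (X : Sm D) :
    (crys hC hconv hR hG hL).emax i X = E hC i X := emax_eq hC hconv i _ X rfl

theorem crys_adapted (w : List I) : ∀ X : Sm D,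
    (crys hC hconv hR hG hL).Adapted w X ↔ (sys hC hconv hR hG).Ad w X := by
  induction w with
  | nil => intro X; exact Iff.rfl
  | cons i w ih =>
    intro X
    have h := ih (E hC i X)
    rw [← crys_emax hC hconv hR hG hL i X] at h
    refine h.trans ?_
    rw [crys_emax]
    exact Iff.rfl

theorem crys_vec (w : List I) : ∀ X : Sm D,
    (crys hC hconv hR hG hL).vec w X = (sys hC hconv hR hG).str w X := by
  induction w with
  | nil =>
    intro X
    funext k
    exact k.elim0
  | cons i w ih =>
    intro X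
    have h := ih (E hC i X)
    funext k
    refine Fin.cases ?_ (fun k => ?_) (k : Fin (w.length + 1))
    · rfl
    · have h1 := congrFun h k
      have h2 : (crys hC hconv hR hG hL).vec (i :: w) X (Fin.succ k : Fin (w.length + 1)) =
          (crys hC hconv hR hG hL).vec w ((crys hC hconv hR hG hL).emax i X) k := rfl
      rw [h2, crys_emax, h1]
      rfl

include hL in
/-- the strings of the adapted simple modules span -/
theorem hspan {w : List I} (hw : Span.Reduced D.A w) : ∀ j, j <:+ w →
    Submodule.span ℚ {v | ∃ X, (sys hC hconv hR hG).Ad j X ∧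
      (sys hC hconv hR hG).str j X = v} = ⊤ := by
  have hsuf : ∀ j : List I, j <:+ w → Span.Reduced D.A j := by
    intro j hj
    obtain ⟨t, rfl⟩ := hj
    induction t with
    | nil => exact hw
    | cons i t ih =>
      exact ih (Span.reduced_tail hw)
  intro j hj
  have h1 := Span.CrysData.spans (D := crys hC hconv hR hG hL) (symGCM D) j (hsuf j hj)
  rw [← h1]
  congr 1
  ext v
  constructor
  · rintro ⟨X, hX, rfl⟩
    exact ⟨X, (crys_adapted hC hconv hR hG hL j X).2 hX, (crys_vec hC hconv hR hG hL j X).symm⟩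
  · rintro ⟨X, hX, rfl⟩
    exact ⟨X, (crys_adapted hC hconv hR hG hL j X).1 hX, (crys_vec hC hconv hR hG hL j X).symm⟩

end Sm

end Pool.Agent.KLR
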