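import Pool.Agent.Work.MP_e487d8_al.Fin.Ring
import Pool.Agent.Work.MP_e487d8_al.Abs.Sys
import Pool.Agent.Work.MP_e487d8_al.Conv.Assoc

/-! MP_e487d8_al, block Fin: `ε_i`, `e_i^max`, weights, words of adapted modules. -/

set_option autoImplicit false

open Pool.Agent.E487.Hopf

namespace Pool.Agent.KLR

variable {K I : Type} [Field K] [Fintype I] [DecidableEq I] {D : Datum K I}

namespace Sm

variable {Lp : I → ℕ → SMod D} (hC : CFacts D Lp) (hconv : S_conv D)

theorem le_eps {i : I} {X : Sm D} {a : ℕ} {ν : List I} (h : X.1 (List.replicate a i ++ ν) ≠ 0) :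
    a ≤ eps hC i X := by
  by_contra h1
  exact h (ch_zero hC i X (not_le.1 h1) ν)

theorem exists_eps (i : I) (X : Sm D) :
    ∃ ν, X.1 (List.replicate (eps hC i X) i ++ ν) ≠ 0 ∧ (E hC i X).1 ν ≠ 0 := by
  obtain ⟨ν, hν⟩ := (E hC i X).exists_ne
  refine ⟨ν, ?_, hν⟩
  rw [ch_eps]
  exact Nat.mul_ne_zero (Nat.factorial_ne_zero _) hν

theorem sh_of_co {X Y Z : Sm D} (h : co hC hconv X Y Z ≠ 0) {w : List I} (hw : Z.1 w ≠ 0) :
    ∃ u v, IsSh w u v ∧ X.1 u ≠ 0 ∧ Y.1 v ≠ 0 := by
  have h1 := subQ_of_mult hC (fd_conv hconv X.rep Y.rep) h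
  rw [← Z.ch_rep] at hw
  obtain ⟨u, v, h2, h3, h4⟩ := sh_of_subQ hconv h1 hw
  rw [ch_rep] at h3 h4
  exact ⟨u, v, h2, h3, h4⟩

theorem eps_co {i : I} {X Y Z : Sm D} (h : co hC hconv X Y Z ≠ 0) :
    eps hC i Z ≤ eps hC i X + eps hC i Y := by
  obtain ⟨ν, hν, _⟩ := exists_eps hC i Z
  obtain ⟨u, v, h1, h2, h3⟩ := sh_of_co hC hconv h hν
  obtain ⟨p, q, u', v', h4, rfl, rfl, _⟩ := h1.of_replicate
  have := le_eps hC h2
  have := le_eps hC h3
  omega

theorem LW_chq_top (i : I) (X : Sm D) :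
    Sh.LW (List.replicate (eps hC i X) i) (chq X) =
      ((eps hC i X).factorial : ℚ) • chq (E hC i X) := by
  apply Sh.ext'
  intro w
  show (X.1 _ : ℚ) = _ * ((E hC i X).1 w : ℚ)
  rw [ch_eps]
  push_cast
  rfl

theorem LW_chq_zero {i : I} {X : Sm D} {a : ℕ} (h : eps hC i X < a) :
    Sh.LW (List.replicate a i) (chq X) = 0 := by
  apply Sh.ext'
  intro w
  show (X.1 _ : ℚ) = 0
  rw [ch_zero hC i X h, Nat.cast_zero]

theorem comb_mapDomain (m : Sm D →₀ ℕ) (F : Sm D → Sm D) :
    comb (m.mapDomain F) = m.sum fun W k => (k : ℚ) • chq (F W) := by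
  classical
  rw [comb_eq, Finsupp.sum_mapDomain_index]
  · intro _; rw [Nat.cast_zero, zero_smul]
  · intro _ _ _; rw [Nat.cast_add, add_smul]

theorem LW_comb (v : List I) (m : Sm D →₀ ℕ) :
    Sh.LW v (comb m) = m.sum fun W k => (k : ℚ) • Sh.LW v (chq W) := by
  rw [comb_eq, map_finsuppSum]
  refine Finsupp.sum_congr fun W _ => ?_
  rw [map_smul]

theorem co_E {i : I} {X Y Z : Sm D} (h : eps hC i Z = eps hC i X + eps hC i Y) :
    co hC hconv X Y Z = co hC hconv (E hC i X) (E hC i Y) (E hC i Z) := by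
  classical
  set a := eps hC i X with ha
  set b := eps hC i Y with hb
  set m := (co hC hconv X Y).filter fun W => eps hC i W = a + b with hm
  set m' := (co hC hconv X Y).filter fun W => ¬ eps hC i W = a + b with hm'
  have hmW : ∀ W, m W = if eps hC i W = a + b then co hC hconv X Y W else 0 := fun W =>
    Finsupp.filter_apply _ _ _
  have hmW' : ∀ W, m' W = if ¬ eps hC i W = a + b then co hC hconv X Y W else 0 := fun W =>
    Finsupp.filter_apply _ _ _
  have hf : ((a + b).factorial : ℚ) ≠ 0 := by exact_mod_cast Nat.factorial_ne_zero _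
  have h2 : Sh.LW (List.replicate (a + b) i) (chq X * chq Y) =
      ((a + b).factorial : ℚ) • (chq (E hC i X) * chq (E hC i Y)) := by
    have h1 := Sh.Lp_mul i (a + b) a b (chq X) (chq Y) rfl
      (LW_chq_zero hC (i := i) (X := X) (Nat.lt_succ_self _))
      (LW_chq_zero hC (i := i) (X := Y) (Nat.lt_succ_self _))
    refine h1.trans ?_
    have e1 : Sh.Lp i a (chq X) = (a.factorial : ℚ) • chq (E hC i X) := LW_chq_top hC i X
    have e2 : Sh.Lp i b (chq Y) = (b.factorial : ℚ) • chq (E hC i Y) := LW_chq_top hC i Y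
    rw [e1, e2, smul_mul_smul_comm, smul_smul]
    congr 1
    have h3 := Nat.choose_mul_factorial_mul_factorial (Nat.le_add_right a b)
    rw [Nat.add_sub_cancel_left] at h3
    rw [← mul_assoc]
    exact_mod_cast h3
  have h3 : Sh.LW (List.replicate (a + b) i) (comb (co hC hconv X Y)) =
      ((a + b).factorial : ℚ) • comb (m.mapDomain (E hC i)) := by
    have h4 : co hC hconv X Y = m + m' :=
      (Finsupp.filter_add_filter_not (co hC hconv X Y) (fun W => eps hC i W = a + b)).symm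
    rw [h4, comb_add, map_add, LW_comb, LW_comb, comb_mapDomain]
    have h5 : (m'.sum fun W k => (k : ℚ) • Sh.LW (List.replicate (a + b) i) (chq W)) = 0 := by
      refine Finset.sum_eq_zero fun W hW => ?_
      have h6 := Finsupp.mem_support_iff.1 hW
      rw [hmW'] at h6
      have h7 : ¬ eps hC i W = a + b := by
        intro h7
        apply h6
        rw [if_neg]
        exact fun h8 => h8 h7
      have h8 : co hC hconv X Y W ≠ 0 := by
        rw [if_pos h7] at h6
        exact h6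
      have h9 := eps_co hC hconv (i := i) h8
      show ((m' W : ℕ) : ℚ) • Sh.LW (List.replicate (a + b) i) (chq W) = 0
      rw [LW_chq_zero hC (by omega), smul_zero]
    rw [h5, add_zero, Finsupp.smul_sum]
    refine Finsupp.sum_congr fun W hW => ?_
    have h6 := Finsupp.mem_support_iff.1 hW
    have h7 : eps hC i W = a + b := by
      by_contra h7
      apply h6
      rw [hmW, if_neg h7]
    rw [← h7, LW_chq_top, smul_comm]
  have h4 : comb (co hC hconv (E hC i X) (E hC i Y)) = comb (m.mapDomain (E hC i)) := by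
    rw [← chq_mul hC hconv, h2, chq_mul hC hconv] at h3
    exact smul_right_injective _ hf h3
  rw [comb_inj hC h4, Finsupp.mapDomain_apply' {W | eps hC i W = a + b} m ?_ ?_ h, hmW,
    if_pos h]
  · intro W hW
    by_contra h7
    have h6 := Finsupp.mem_support_iff.1 hW
    apply h6
    rw [hmW]
    exact if_neg h7
  · intro W hW W' hW' hE
    exact eps_inj hC (hW.trans hW'.symm) hE

/-! ### weights -/

/-- the weight -/
noncomputable def wt (X : Sm D) : I →₀ ℕ := Finsupp.equivFunOnFinite.symm fun i => X.rep.wt i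

theorem wt_apply (X : Sm D) (i : I) : wt X i = X.rep.wt i := rfl

theorem count_eq {X : Sm D} {ν : List I} (h : X.1 ν ≠ 0) (i : I) : ν.count i = wt X i :=
  X.rep.count_eq_wt (by rwa [X.ch_rep]) i

theorem wt_co {X Y Z : Sm D} (h : co hC hconv X Y Z ≠ 0) : wt Z = wt X + wt Y := by
  obtain ⟨ν, hν⟩ := Z.exists_ne
  obtain ⟨u, v, h1, h2, h3⟩ := sh_of_co hC hconv h hν
  ext i
  rw [Finsupp.add_apply, ← count_eq hν, ← count_eq h2, ← count_eq h3, h1.count]

theorem wt_zero {X : Sm D} (h : wt X = 0) : X = one D := by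
  obtain ⟨ν, hν⟩ := X.exists_ne
  refine eq_one_of_len ?_
  rw [← length_of_ne hν]
  cases ν with
  | nil => rfl
  | cons i ν =>
    have h1 := count_eq hν i
    rw [h, Finsupp.coe_zero, Pi.zero_apply, List.count_cons_self] at h1
    omega

theorem wt_one : wt (one D) = 0 := by
  have h : (one D).1 [] ≠ 0 := by rw [one_apply]; simp
  ext i
  rw [← count_eq h]
  rfl

theorem wt_E (i : I) (X : Sm D) : wt X = wt (E hC i X) + Finsupp.single i (eps hC i X) := by
  obtain ⟨ν, hν, hν'⟩ := exists_eps hC i X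
  ext j
  rw [Finsupp.add_apply, ← count_eq hν, ← count_eq hν', List.count_append, List.count_replicate,
    Finsupp.single_apply, add_comm]
  congr 1
  by_cases h : i = j
  · subst h; simp
  · rw [if_neg h, if_neg (by simpa using h)]

/-! ### words of adapted modules -/

/-- the words `i_1^{a_1} ... i_m^{a_m}` -/
def Frm : List I → List I → Prop
  | [], ν => ν = []
  | i :: w, ν => ∃ a ν', ν = List.replicate a i ++ ν' ∧ Frm w ν'

omit [Fintype I] [DecidableEq I] in
theorem Frm.sh : ∀ {w ν u v : List I}, Frm w ν → IsSh ν u v → Frm w v := by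
  intro w
  induction w with
  | nil =>
    intro ν u v h h1
    rw [Frm] at h
    subst h
    exact h1.of_nil.2
  | cons i w ih =>
    intro ν u v h h1
    obtain ⟨a, ν', rfl, h2⟩ := h
    obtain ⟨p, q, u', v', _, _, rfl, h3⟩ := h1.of_replicate
    exact ⟨q, v', rfl, ih h2 h3⟩

include hconv in
/-- the words of `X` are shuffles of `i^ε` and words of `E_i X` -/
theorem sh_E (i : I) {X : Sm D} {w : List I} (h : X.1 w ≠ 0) :
    ∃ u v, IsSh w u v ∧ (E hC i X).1 v ≠ 0 := by
  rw [← X.ch_rep] at h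
  obtain ⟨u, v, h1, _, h2⟩ := sh_of_subQ hconv (subQ_of_quo (quo_rep hC i X)) h
  rw [ch_rep] at h2
  exact ⟨u, v, h1, h2⟩

include hconv in
theorem ad_iff : ∀ (w : List I) (X : Sm D),
    KLRAbs.AdP (E hC) (one D) w X ↔ ∃ ν, Frm w ν ∧ X.1 ν ≠ 0 := by
  intro w
  induction w with
  | nil =>
    intro X
    constructor
    · rintro rfl
      exact ⟨[], rfl, by rw [one_apply]; simp⟩
    · rintro ⟨ν, h, hν⟩
      rw [Frm] at h
      subst h
      exact eq_one_of_len (length_of_ne hν).symm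
  | cons i w ih =>
    intro X
    constructor
    · intro h
      obtain ⟨ν, h1, h2⟩ := (ih (E hC i X)).1 h
      refine ⟨List.replicate (eps hC i X) i ++ ν, ⟨_, _, rfl, h1⟩, ?_⟩
      rw [ch_eps]
      exact Nat.mul_ne_zero (Nat.factorial_ne_zero _) h2
    · rintro ⟨ν, h, hν⟩
      obtain ⟨u, v, h1, h2⟩ := sh_E hC hconv i hν
      obtain ⟨q, v', rfl, h3⟩ := h.sh h1
      have h4 := le_eps hC h2
      rw [eps_E] at h4
      have h5 : q = 0 := by omega
      subst h5
      exact (ih (E hC i X)).2 ⟨v', h3, h2⟩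

include hconv in
theorem ad_E (i : I) (w : List I) (X : Sm D) (h : KLRAbs.AdP (E hC) (one D) w X) :
    KLRAbs.AdP (E hC) (one D) w (E hC i X) := by
  rw [ad_iff hC hconv] at h ⊢
  obtain ⟨ν, h1, h2⟩ := h
  obtain ⟨u, v, h3, h4⟩ := sh_E hC hconv i h2
  exact ⟨v, h1.sh h3, h4⟩

/-! ### the one dimensional modules `L(i)` -/

/-- the class of `L(i)` -/
noncomputable def lt (Lp : I → ℕ → SMod D) (i : I) : Sm D := cls (Lp i 1)

include hC in
theorem lt_apply (i : I) (ν : List I) : (lt Lp i).1 ν = if ν = [i] then 1 else 0 := by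
  have h := hC.ch_Lp i 1 ν
  rw [Nat.factorial_one] at h
  exact h

include hC in
theorem lt_real (i : I) : ∃ Z : Sm D, chq (lt Lp i) * chq (lt Lp i) = chq Z := by
  refine ⟨cls (Lp i 2), ?_⟩
  have hv : ∀ j, Sh.L j (chq (lt Lp i)) = if j = i then 1 else 0 := by
    intro j
    apply Sh.ext'
    intro w
    rw [Sh.L_apply]
    show (((lt Lp i).1 (j :: w) : ℕ) : ℚ) = _
    rw [lt_apply hC]
    by_cases hj : j = i
    · subst hj
      rw [if_pos rfl]
      cases w with
      | nil => rw [if_pos rfl, Sh.one_nil, Nat.cast_one]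
      | cons k w => rw [if_neg (by simp), Sh.one_cons, Nat.cast_zero]
    · rw [if_neg hj, if_neg (by simp [hj]), Nat.cast_zero]
      rfl
  have h2 : ∀ ν, (cls (Lp i 2)).1 ν = if ν = [i, i] then 2 else 0 := by
    intro ν
    exact hC.ch_Lp i 2 ν
  apply Sh.ext'
  intro w
  show _ = (((cls (Lp i 2)).1 w : ℕ) : ℚ)
  rw [h2]
  cases w with
  | nil =>
    rw [Sh.mul_nil, if_neg (by simp), Nat.cast_zero]
    have : chq (lt Lp i) [] = 0 := by
      show (((lt Lp i).1 [] : ℕ) : ℚ) = 0
      rw [lt_apply hC, if_neg (by simp), Nat.cast_zero]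
    rw [this, mul_zero]
  | cons j w =>
    rw [Sh.mul_cons, hv]
    by_cases hj : j = i
    · subst hj
      rw [if_pos rfl, one_mul, mul_one]
      show (((lt Lp j).1 w : ℕ) : ℚ) + (((lt Lp j).1 w : ℕ) : ℚ) = _
      rw [lt_apply hC]
      by_cases hw : w = [j]
      · subst hw
        rw [if_pos rfl, if_pos rfl]
        norm_num
      · rw [if_neg hw, if_neg (by simp [hw])]
        norm_num
    · rw [if_neg hj, zero_mul, mul_zero, if_neg (by simp [hj])]
      simp

theorem head_lt {i : I} {C H : Sm D} (h : Quo D H.rep.M ((Lp i 1).conv C.rep)) :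
    eps hC i H = eps hC i C + 1 ∧ E hC i H = E hC i C := by
  have h1 := hC.hd_Emax i 1 (eps hC i C) C.rep (E hC i C).rep H.rep (emax hC i C) h
  have h2 := eps_E_of_emax hC h1
  exact ⟨by rw [h2.1, add_comm], h2.2⟩

theorem quo_step {L E C X Y H : SMod D} (hn : L.n + E.n = C.n) (g : L.conv E →ₗ[KLRAlg D] C.M)
    (hg : Function.Surjective g) (e : E.conv X ≃ₗ[KLRAlg D] Y.M) (hH : Quo D H.M (C.conv X)) :
    Quo D H.M (L.conv Y) := by
  obtain ⟨f, hf⟩ := hH
  have h1 := Conv.map_surjective hn g (LinearMap.id : X.M →ₗ[KLRAlg D] X.M) hg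
    Function.surjective_id
  have h2 := Conv.map_surjective (m := L.n) rfl (LinearMap.id : L.M →ₗ[KLRAlg D] L.M)
    e.symm.toLinearMap Function.surjective_id e.symm.surjective
  have h3 := (Conv.assoc D L.n E.n L.M E.M X.M).symm.surjective
  refine ⟨(f.comp (Conv.map hn g (LinearMap.id : X.M →ₗ[KLRAlg D] X.M))).comp
    (((Conv.assoc D L.n E.n L.M E.M X.M).symm.toLinearMap).comp (Conv.map rfl
      (LinearMap.id : L.M →ₗ[KLRAlg D] L.M) e.symm.toLinearMap)), ?_⟩
  rw [LinearMap.coe_comp, LinearMap.coe_comp, LinearMap.coe_comp]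
  exact (hf.comp h1).comp (h3.comp h2)

include hconv in
theorem head_E {i : I} {C X Y H : Sm D} (h : chq (E hC i C) * chq X = chq Y)
    (hH : Quo D H.rep.M (C.rep.conv X.rep)) :
    eps hC i H = eps hC i C + eps hC i Y ∧ E hC i H = E hC i Y := by
  obtain ⟨g, hg⟩ := quo_rep hC i C
  obtain ⟨e⟩ := iso_conv hC hconv h
  have hn : (Lp i (eps hC i C)).n + (E hC i C).rep.n = C.rep.n := by
    rw [hC.n_Lp]
    exact (emax hC i C).1.symm
  have h1 : Quo D H.rep.M ((Lp i (eps hC i C)).conv Y.rep) := quo_step hn g hg e hH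
  have h2 := hC.hd_Emax i (eps hC i C) (eps hC i Y) Y.rep (E hC i Y).rep H.rep (emax hC i Y) h1
  exact eps_E_of_emax hC h2

end Sm

end Pool.Agent.KLR
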