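import Pool.Agent.Work.MP_e487d8_al.Fin.Eps

/-! MP_e487d8_al, block Fin: the abstract system of the simple modules of a KLR algebra. -/

set_option autoImplicit false

open Pool.Agent.E487.Hopf

namespace Pool.Agent.KLR

variable {K I : Type} [Field K] [Fintype I] [DecidableEq I] {D : Datum K I}

namespace Sm

variable {Lp : I → ℕ → SMod D} (hC : CFacts D Lp) (hconv : S_conv D)
  {s s' : SMod D → SMod D → ℕ} (hR : RFacts D s s') (hG : GFacts D s s')

include hC hconv in
/-- an isomorphism `X ∘ Y ≅ Z` from the characters -/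
theorem iso_conv' {X Y Z : SMod D} (h : X.chq * Y.chq = Z.chq) :
    Nonempty (X.conv Y ≃ₗ[KLRAlg D] Z.M) := by
  have hs : IsSimpleModule (KLRAlg D) (X.conv Y) := (comm_iff hC hconv X Y).2 ⟨cls Z, h⟩
  set W : SMod D := ⟨X.n + Y.n, X.conv Y, ⟨fd_conv hconv X Y, hs⟩⟩ with hW
  have h1 : W.ch = Z.ch := by
    funext ν
    have h2 : W.chq = Z.chq := by
      rw [← h, ← chrQ_conv hconv]
      rfl
    have h3 : (W.ch ν : ℚ) = (Z.ch ν : ℚ) := congrFun h2 ν
    exact_mod_cast h3
  exact iso_rep hC h1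

include hC hconv in
theorem iso_un {Y Z : SMod D} (h : Y.ch = Z.ch) :
    Nonempty ((SMod.un D).conv Y ≃ₗ[KLRAlg D] Z.M) := by
  refine iso_conv' hC hconv ?_
  have h1 : (SMod.un D).chq = 1 := chq_one (D := D)
  rw [h1, one_mul]
  apply Sh.ext'
  intro w
  show (Y.ch w : ℚ) = (Z.ch w : ℚ)
  rw [h]

include hC hconv hR in
theorem s_congr {C Y Z : SMod D} (hCr : C.Real) (h : Y.ch = Z.ch) : s C Y = s C Z := by
  have h1 := hR.eq C (SMod.un D) Y Z hCr (iso_un hC hconv h)
  have h2 := hR.eq C (SMod.un D) Y Y hCr (iso_un hC hconv rfl)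
  omega

include hC hconv hR in
theorem s_congr' {C Y Z : SMod D} (hCr : C.Real) (h : Y.ch = Z.ch) : s' C Y = s' C Z := by
  have h1 := hR.eq' C (SMod.un D) Y Z hCr (iso_un hC hconv h)
  have h2 := hR.eq' C (SMod.un D) Y Y hCr (iso_un hC hconv rfl)
  omega

theorem gr_mul_iff {X Y Z : Sm D} :
    bas hC hconv X * bas hC hconv Y = bas hC hconv Z ↔ chq X * chq Y = chq Z := by
  rw [bas_apply, bas_apply, bas_apply, Subtype.ext_iff]
  rfl

theorem real_iff {C : Sm D} :
    (∃ Z, bas hC hconv C * bas hC hconv C = bas hC hconv Z) ↔ C.rep.Real := by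
  unfold SMod.Real
  rw [comm_rep_iff hC hconv]
  exact exists_congr fun Z => gr_mul_iff hC hconv

theorem comm_of {X Y Z : Sm D} (h : bas hC hconv X * bas hC hconv Y = bas hC hconv Z) :
    X.rep.Comm Y.rep := (comm_rep_iff hC hconv X Y).2 ⟨Z, (gr_mul_iff hC hconv).1 h⟩

theorem co_of_chq {X Y Z : Sm D} (h : chq X * chq Y = chq Z) :
    co hC hconv X Y = Finsupp.single Z 1 := by
  refine comb_inj hC ?_
  rw [← chq_mul, comb_single, h]

theorem co_comm (X Y : Sm D) : co hC hconv X Y = co hC hconv Y X := by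
  refine comb_inj hC ?_
  rw [← chq_mul, ← chq_mul, mul_comm]

theorem dd_add (C : SMod D) {X Y Z : SMod D} (h : ∀ i, Z.wt i = X.wt i + Y.wt i) :
    SMod.dd C Z = SMod.dd C X + SMod.dd C Y := by
  unfold SMod.dd
  rw [← Finset.sum_add_distrib]
  refine Finset.sum_congr rfl fun i _ => ?_
  rw [← Finset.sum_add_distrib]
  refine Finset.sum_congr rfl fun j _ => ?_
  split_ifs
  · rfl
  · rw [h]; ring

theorem dd_co {X Y Z : Sm D} (C : Sm D) (h : co hC hconv X Y Z ≠ 0) :
    SMod.dd C.rep Z.rep = SMod.dd C.rep X.rep + SMod.dd C.rep Y.rep :=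
  dd_add _ fun i => by
    rw [← wt_apply, wt_co hC hconv h]
    rfl

/-- `Λ(C, X)` -/
noncomputable def Lam (s : SMod D → SMod D → ℕ) (C X : Sm D) : ℤ :=
  (SMod.dd C.rep X.rep : ℤ) - 2 * s C.rep X.rep

/-- the head of `C ∘ X` -/
noncomputable def nab (C X : Sm D) : Sm D :=
  open Classical in if h : C.rep.Real then cls (hR.hd C.rep X.rep h).choose else C

/-- the head of `X ∘ C` -/
noncomputable def nab' (C X : Sm D) : Sm D :=
  open Classical in if h : C.rep.Real then cls (hR.hd' C.rep X.rep h).choose else C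

include hC in
theorem nab_quo {C : Sm D} (h : C.rep.Real) (X : Sm D) :
    Quo D (nab hR C X).rep.M (C.rep.conv X.rep) := by
  have h1 : nab hR C X = cls (hR.hd C.rep X.rep h).choose := dif_pos h
  rw [h1]
  obtain ⟨f, hf, _⟩ := (hR.hd C.rep X.rep h).choose_spec
  exact quo_congr' (iso_rep hC (ch_rep_cls _)).symm ⟨f, hf⟩

include hC in
theorem nab'_quo {C : Sm D} (h : C.rep.Real) (X : Sm D) :
    Quo D (nab' hR C X).rep.M (X.rep.conv C.rep) := by
  have h1 : nab' hR C X = cls (hR.hd' C.rep X.rep h).choose := dif_pos h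
  rw [h1]
  obtain ⟨f, hf, _⟩ := (hR.hd' C.rep X.rep h).choose_spec
  exact quo_congr' (iso_rep hC (ch_rep_cls _)).symm ⟨f, hf⟩

include hG in
theorem nab_spec {C : Sm D} (h : C.rep.Real) (X : Sm D) :
    co hC hconv C X (nab hR C X) = 1 ∧ Lam s C (nab hR C X) = Lam s C X ∧
      ∀ Z, co hC hconv C X Z ≠ 0 → Z ≠ nab hR C X → Lam s C Z < Lam s C X := by
  classical
  obtain ⟨H, h1, f, hf, h2, h3⟩ : ∃ H : SMod D, nab hR C X = cls H ∧
      ∃ f : C.rep.conv X.rep →ₗ[KLRAlg D] H.M, Function.Surjective f ∧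
        s C.rep H = s C.rep C.rep + s C.rep X.rep ∧ ∀ Z : SMod D, SubQ D Z.M (LinearMap.ker f) →
          s C.rep C.rep + s C.rep X.rep < s C.rep Z :=
    ⟨_, dif_pos h, (hR.hd C.rep X.rep h).choose_spec⟩
  have hself := hG.self C.rep h
  have hfd := fd_conv hconv C.rep X.rep
  have hm : co hC hconv C X = mult hC (hfd.sub (LinearMap.ker f)) + Finsupp.single (cls H) 1 :=
    mult_quo hC hfd f hf
  have hlt : ∀ Z, mult hC (hfd.sub (LinearMap.ker f)) Z ≠ 0 →
      s C.rep C.rep + s C.rep X.rep < s C.rep Z.rep := fun Z hZ =>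
    h3 Z.rep (subQ_of_mult hC (hfd.sub (LinearMap.ker f)) hZ)
  have hsH : s C.rep (cls H).rep = s C.rep C.rep + s C.rep X.rep := by
    rw [← h2]
    exact s_congr hC hconv hR h (ch_rep_cls H)
  have h0 : mult hC (hfd.sub (LinearMap.ker f)) (cls H) = 0 := by
    by_contra hne
    have h4 := hlt _ hne
    omega
  have hco : co hC hconv C X (cls H) = 1 := by
    rw [hm, Finsupp.add_apply, h0, Finsupp.single_eq_same]
  refine ⟨by rw [h1, hco], ?_, ?_⟩
  · rw [h1]
    unfold Lam
    rw [dd_co hC hconv C (Z := cls H) (by rw [hco]; exact one_ne_zero), hsH]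
    push_cast
    have : (2 : ℤ) * s C.rep C.rep = SMod.dd C.rep C.rep := by exact_mod_cast hself
    linarith
  · intro Z hZ hne
    unfold Lam
    rw [dd_co hC hconv C hZ]
    rw [h1] at hne
    have h5 : mult hC (hfd.sub (LinearMap.ker f)) Z ≠ 0 := by
      rw [hm, Finsupp.add_apply, Finsupp.single_apply, if_neg (Ne.symm hne), add_zero] at hZ
      exact hZ
    have h6 := hlt Z h5
    have h7 : (2 : ℤ) * s C.rep C.rep = SMod.dd C.rep C.rep := by exact_mod_cast hself
    have h8 : (s C.rep C.rep : ℤ) + s C.rep X.rep < s C.rep Z.rep := by exact_mod_cast h6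
    push_cast
    linarith

include hG in
theorem nab'_spec {C : Sm D} (h : C.rep.Real) (X : Sm D) :
    co hC hconv C X (nab' hR C X) = 1 ∧ Lam s' C (nab' hR C X) = Lam s' C X ∧
      ∀ Z, co hC hconv C X Z ≠ 0 → Z ≠ nab' hR C X → Lam s' C Z < Lam s' C X := by
  classical
  obtain ⟨H, h1, f, hf, h2, h3⟩ : ∃ H : SMod D, nab' hR C X = cls H ∧
      ∃ f : X.rep.conv C.rep →ₗ[KLRAlg D] H.M, Function.Surjective f ∧
        s' C.rep H = s' C.rep C.rep + s' C.rep X.rep ∧ ∀ Z : SMod D, SubQ D Z.M (LinearMap.ker f) →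
          s' C.rep C.rep + s' C.rep X.rep < s' C.rep Z :=
    ⟨_, dif_pos h, (hR.hd' C.rep X.rep h).choose_spec⟩
  have hself := hG.self' C.rep h
  have hfd := fd_conv hconv X.rep C.rep
  have hm : co hC hconv C X = mult hC (hfd.sub (LinearMap.ker f)) + Finsupp.single (cls H) 1 := by
    rw [co_comm]
    exact mult_quo hC hfd f hf
  have hlt : ∀ Z, mult hC (hfd.sub (LinearMap.ker f)) Z ≠ 0 →
      s' C.rep C.rep + s' C.rep X.rep < s' C.rep Z.rep := fun Z hZ =>
    h3 Z.rep (subQ_of_mult hC (hfd.sub (LinearMap.ker f)) hZ)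
  have hsH : s' C.rep (cls H).rep = s' C.rep C.rep + s' C.rep X.rep := by
    rw [← h2]
    exact s_congr' hC hconv hR h (ch_rep_cls H)
  have h0 : mult hC (hfd.sub (LinearMap.ker f)) (cls H) = 0 := by
    by_contra hne
    have h4 := hlt _ hne
    omega
  have hco : co hC hconv C X (cls H) = 1 := by
    rw [hm, Finsupp.add_apply, h0, Finsupp.single_eq_same]
  refine ⟨by rw [h1, hco], ?_, ?_⟩
  · rw [h1]
    unfold Lam
    rw [dd_co hC hconv C (Z := cls H) (by rw [hco]; exact one_ne_zero), hsH]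
    push_cast
    have : (2 : ℤ) * s' C.rep C.rep = SMod.dd C.rep C.rep := by exact_mod_cast hself
    linarith
  · intro Z hZ hne
    unfold Lam
    rw [dd_co hC hconv C hZ]
    rw [h1] at hne
    have h5 : mult hC (hfd.sub (LinearMap.ker f)) Z ≠ 0 := by
      rw [hm, Finsupp.add_apply, Finsupp.single_apply, if_neg (Ne.symm hne), add_zero] at hZ
      exact hZ
    have h6 := hlt Z h5
    have h7 : (2 : ℤ) * s' C.rep C.rep = SMod.dd C.rep C.rep := by exact_mod_cast hself
    have h8 : (s' C.rep C.rep : ℤ) + s' C.rep X.rep < s' C.rep Z.rep := by exact_mod_cast h6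
    push_cast
    linarith

theorem eq_of_iso {X Y : Sm D} (h : X.rep.Iso Y.rep) : X = Y := by
  rw [← cls_rep X, ← cls_rep Y]
  exact Subtype.ext (SMod.ch_iso h)

include hC hconv in
theorem comm_symm {X Y : SMod D} (h : X.Comm Y) : Y.Comm X := by
  rw [comm_iff hC hconv] at h ⊢
  obtain ⟨Z, hZ⟩ := h
  exact ⟨Z, by rw [mul_comm]; exact hZ⟩

theorem pr_eq (i : I) (X : Sm D) :
    SMod.pr i X.rep = (wt X).sum fun j n => D.A i j * (n : ℤ) := by
  unfold SMod.pr
  rw [Finsupp.sum_fintype]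
  · rfl
  · intro j; simp

/-- the abstract system of the simple modules -/
noncomputable def sys : KLRAbs.Sys I (Sm D) (Gr hC hconv) where
  A := D.A
  A_diag := D.diag
  b := bas hC hconv
  co := co hC hconv
  b_mul X Y := by
    rw [bas_apply, bas_apply]
    refine Subtype.ext ?_
    show chq X * chq Y = (Gr hC hconv).val.toLinearMap _
    rw [chq_mul hC hconv, comb_eq, map_finsuppSum]
    refine Finsupp.sum_congr fun Z _ => ?_
    rw [bas_apply]
    rfl
  one := one D
  b_one := by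
    rw [bas_apply]
    exact Subtype.ext chq_one
  wt := wt
  wt_co X Y Z h := wt_co hC hconv h
  wt_zero X h := wt_zero h
  Lam := Lam s
  Lam' := Lam s'
  Lam_nonneg C X h := by
    rw [real_iff] at h
    have h1 := hR.le C.rep X.rep h
    unfold Lam
    have h2 : (s C.rep X.rep : ℤ) + s' C.rep X.rep ≤ SMod.dd C.rep X.rep := by exact_mod_cast h1
    linarith
  Lam_co C X Y Z h hco := by
    rw [real_iff] at h
    have h1 := hR.sub C.rep X.rep Y.rep Z.rep h (subQ_of_mult hC _ hco)
    unfold Lam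
    rw [dd_co hC hconv C hco]
    have h2 : (s C.rep X.rep : ℤ) + s C.rep Y.rep ≤ s C.rep Z.rep := by exact_mod_cast h1
    push_cast
    linarith
  Lam'_co C X Y Z h hco := by
    rw [real_iff] at h
    have h1 := hR.sub' C.rep X.rep Y.rep Z.rep h (subQ_of_mult hC _ hco)
    unfold Lam
    rw [dd_co hC hconv C hco]
    have h2 : (s' C.rep X.rep : ℤ) + s' C.rep Y.rep ≤ s' C.rep Z.rep := by exact_mod_cast h1
    push_cast
    linarith
  Lam_eq C X Y Z h hXY := by
    rw [real_iff] at h
    rw [gr_mul_iff] at hXY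
    have h1 := hR.eq C.rep X.rep Y.rep Z.rep h (iso_conv hC hconv hXY)
    unfold Lam
    rw [h1, dd_co hC hconv C (X := X) (Y := Y) (Z := Z)
      (by rw [co_of_chq hC hconv hXY, Finsupp.single_eq_same]; exact one_ne_zero)]
    push_cast
    ring
  Lam'_eq C X Y Z h hXY := by
    rw [real_iff] at h
    rw [gr_mul_iff] at hXY
    have h1 := hR.eq' C.rep X.rep Y.rep Z.rep h (iso_conv hC hconv hXY)
    unfold Lam
    rw [h1, dd_co hC hconv C (X := X) (Y := Y) (Z := Z)
      (by rw [co_of_chq hC hconv hXY, Finsupp.single_eq_same]; exact one_ne_zero)]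
    push_cast
    ring
  Lam_self C h := by
    rw [real_iff] at h
    have h1 := hG.self C.rep h
    unfold Lam
    rw [← h1]
    push_cast
    ring
  Lam'_self C h := by
    rw [real_iff] at h
    have h1 := hG.self' C.rep h
    unfold Lam
    rw [← h1]
    push_cast
    ring
  Lam_one X := by
    unfold Lam
    rw [hR.one (one D).rep X.rep len_one]
    have h1 : SMod.dd (one D).rep X.rep = 0 := by
      unfold SMod.dd
      refine Finset.sum_eq_zero fun i _ => Finset.sum_eq_zero fun j _ => ?_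
      split_ifs
      · rfl
      · have h2 : (one D).rep.wt i = 0 := by
          rw [← wt_apply, wt_one]
          rfl
        rw [h2, mul_zero, zero_mul]
    rw [h1]
    simp
  Lam_comm C Y Z h hCY := by
    rw [real_iff] at h
    have h1 := hR.comm C.rep Y.rep h (comm_of hC hconv hCY)
    unfold Lam
    rw [← h1]
    push_cast
    ring
  nab := nab hR
  nab' := nab' hR
  nab_spec C X h := nab_spec hC hconv hR hG ((real_iff hC hconv).1 h) X
  nab'_spec C X h := nab'_spec hC hconv hR hG ((real_iff hC hconv).1 h) X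
  nab_simple C X h hn := by
    classical
    rw [real_iff] at h
    rw [gr_mul_iff]
    have h1 := nab_quo hC hR h X
    have h2 := nab'_quo hC hR h X
    rw [← hn] at h2
    have h3 := hR.simple C.rep X.rep _ h h1 h2
    obtain ⟨Z, hZ⟩ := (comm_rep_iff hC hconv C X).1 h3
    have h4 := (nab_spec hC hconv hR hG h X).1
    rw [co_of_chq hC hconv hZ, Finsupp.single_apply] at h4
    have h5 : Z = nab hR C X := by
      by_contra hne
      rw [if_neg hne] at h4
      exact zero_ne_one h4
    rw [← h5]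
    exact hZ
  nab_inj C X Y h hn := by
    rw [real_iff] at h
    have h1 := nab_quo hC hR h X
    have h2 := nab_quo hC hR h Y
    rw [← hn] at h2
    exact eq_of_iso (hR.inj C.rep X.rep Y.rep _ h h1 h2)
  nab'_inj C X Y h hn := by
    rw [real_iff] at h
    have h1 := nab'_quo hC hR h X
    have h2 := nab'_quo hC hR h Y
    rw [← hn] at h2
    exact eq_of_iso (hR.inj' C.rep X.rep Y.rep _ h h1 h2)
  nab_real C M Z h h' hZ := by
    rw [real_iff] at h h' ⊢
    exact hR.real C.rep M.rep _ h h' (nab_quo hC hR h M) (comm_of hC hconv hZ)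
  nab'_real C M Z h h' hZ := by
    rw [real_iff] at h h' ⊢
    exact hR.real' C.rep M.rep _ h h' (nab'_quo hC hR h M) (comm_of hC hconv hZ)
  eps := eps hC
  E := E hC
  eps_E := eps_E hC
  E_of_eps i X h := E_of_eps hC h
  eps_inj i X Y h h' := eps_inj hC h h'
  eps_surj i a X h := eps_surj hC hconv i a h
  wt_E := wt_E hC
  eps_co i X Y Z h := eps_co hC hconv h
  co_E i X Y Z h := co_E hC hconv h
  lt := lt Lp
  lt_real i := by
    obtain ⟨Z, hZ⟩ := lt_real hC i
    exact ⟨Z, (gr_mul_iff hC hconv).2 hZ⟩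
  nab'_lt i C h := by
    rw [real_iff] at h
    have h1 := nab'_quo hC hR h (lt Lp i)
    exact head_lt hC (SMod.quo_congr (iso_rep hC (ch_rep_cls (Lp i 1))) (SMod.Iso.refl _)
      (SMod.Iso.refl _) h1)
  nab_E i C X Y h hXY := by
    rw [real_iff] at h
    rw [gr_mul_iff] at hXY
    exact head_E hC hconv hXY (nab_quo hC hR h X)
  sg := 1
  sg_ne := one_ne_zero
  Lam_E i C Y Z h hCY := by
    rw [real_iff] at h
    have h1 := hG.lam i (eps hC i C) (eps hC i Y) C.rep Y.rep (E hC i C).rep (E hC i Y).rep h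
      (comm_of hC hconv hCY) (emax hC i C) (emax hC i Y)
    rw [pr_eq, pr_eq] at h1
    rw [one_mul]
    exact h1
  Ad_E := ad_E hC hconv

end Sm

end Pool.Agent.KLR
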