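import Pool.Agent.Work.MP_e487d8_al.Fin.Crys

/-! MP_e487d8_al, block Fin: the theorem for (ungraded) simple nilpotent modules, from the contract
`CFacts`, `S_conv`, `RFacts`, `GFacts`, `LFacts`. -/

set_option autoImplicit false

open Pool.Agent.E487.Hopf Pool.Agent.Work.MP_e487d8_al

namespace Pool.Agent.KLR

variable {K I : Type} [Field K] [Fintype I] [DecidableEq I] {D : Datum K I}

namespace Sm

/-- `X` is adapted to the word `w`: some word `i_1^{a_1} ... i_m^{a_m}` occurs in the character -/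
def Adw (w : List I) (X : Sm D) : Prop := ∃ ν, Frm w ν ∧ X.1 ν ≠ 0

/-- a stably irreducible family of adapted simple modules (without the trivial module): closed
under convolution -/
def Family (w : List I) (L : Set (Sm D)) : Prop :=
  (∀ X ∈ L, X.len ≠ 0 ∧ Adw w X) ∧
    ∀ X ∈ L, ∀ Y ∈ L, ∃ Z ∈ L, Nonempty (X.rep.conv Y.rep ≃ₗ[KLRAlg D] Z.rep.M)

/-- maximal families -/
def MaxFamily (w : List I) (L : Set (Sm D)) : Prop :=
  Family w L ∧ ∀ L', Family w L' → L ⊆ L' → L' = L

/-- the atomic members -/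
def atoms (L : Set (Sm D)) : Set (Sm D) :=
  {X | X ∈ L ∧ ¬ ∃ Y ∈ L, ∃ Z ∈ L, Nonempty (Y.rep.conv Z.rep ≃ₗ[KLRAlg D] X.rep.M)}

/-- `X` is (isomorphic to) a convolution product of the modules of the list -/
inductive IsProd : List (Sm D) → Sm D → Prop
  | single (X : Sm D) : IsProd [X] X
  | cons (Y : Sm D) {l : List (Sm D)} {X Z : Sm D} (h : IsProd l X)
      (e : Nonempty (Y.rep.conv X.rep ≃ₗ[KLRAlg D] Z.rep.M)) : IsProd (Y :: l) Z

theorem IsProd.ne_nil {l : List (Sm D)} {X : Sm D} (h : IsProd l X) : l ≠ [] := by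
  cases h <;> simp

theorem chq_of_iso (hconv : S_conv D) {X Y Z : Sm D}
    (h : Nonempty (X.rep.conv Y.rep ≃ₗ[KLRAlg D] Z.rep.M)) : chq X * chq Y = chq Z := by
  obtain ⟨g⟩ := h
  rw [← chq_rep X, ← chq_rep Y, ← chrQ_conv hconv]
  have hn : Z.rep.n = X.rep.n + Y.rep.n :=
    quo_strand (fd_conv hconv X.rep Y.rep) ⟨g.toLinearMap, g.surjective⟩
  have := (fd_conv hconv X.rep Y.rep).fd
  apply Sh.ext'
  intro w
  rw [chrQ_apply, chr_congr g, ← hn]
  show (Z.rep.ch w : ℚ) = (Z.1 w : ℚ)
  rw [ch_rep]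

theorem IsProd.chq (hconv : S_conv D) {l : List (Sm D)} {X : Sm D} (h : IsProd l X) :
    (l.map Sm.chq).prod = Sm.chq X := by
  induction h with
  | single X => simp
  | cons Y h e ih => rw [List.map_cons, List.prod_cons, ih, chq_of_iso hconv e]

variable {Lp : I → ℕ → SMod D} (hC : CFacts D Lp) (hconv : S_conv D)
  {s s' : SMod D → SMod D → ℕ} (hR : RFacts D s s') (hG : GFacts D s s') (hL : LFacts D s s')

theorem iso_iff {X Y Z : Sm D} : Nonempty (X.rep.conv Y.rep ≃ₗ[KLRAlg D] Z.rep.M) ↔
    (sys hC hconv hR hG).b X * (sys hC hconv hR hG).b Y = (sys hC hconv hR hG).b Z := by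
  have h1 : (sys hC hconv hR hG).b = bas hC hconv := rfl
  rw [h1, gr_mul_iff]
  exact ⟨chq_of_iso hconv, iso_conv hC hconv⟩

theorem adw_iff {w : List I} {X : Sm D} : Adw w X ↔ (sys hC hconv hR hG).Ad w X :=
  (ad_iff hC hconv w X).symm

theorem one_iff {X : Sm D} : X.len ≠ 0 ↔ X ≠ one D := by
  constructor
  · rintro h rfl
    exact h len_one
  · intro h h1
    exact h (eq_one_of_len h1)

theorem family_iff {w : List I} {L : Set (Sm D)} :
    Family w L ↔ KLRAbs.Sys.IsFam (sys hC hconv hR hG) w L := by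
  unfold Family KLRAbs.Sys.IsFam
  refine and_congr ?_ ?_
  · refine forall_congr' fun X => forall_congr' fun _ => and_congr one_iff ?_
    exact adw_iff hC hconv hR hG
  · refine forall_congr' fun X => forall_congr' fun _ => forall_congr' fun Y =>
      forall_congr' fun _ => exists_congr fun Z => and_congr Iff.rfl ?_
    exact iso_iff hC hconv hR hG

theorem maxFamily_iff {w : List I} {L : Set (Sm D)} :
    MaxFamily w L ↔ KLRAbs.Sys.IsMaxFam (sys hC hconv hR hG) w L := by
  unfold MaxFamily KLRAbs.Sys.IsMaxFam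
  refine and_congr (family_iff hC hconv hR hG) (forall_congr' fun L' => ?_)
  rw [family_iff hC hconv hR hG]

theorem atoms_iff (L : Set (Sm D)) : atoms L = KLRAbs.Sys.Atoms (sys hC hconv hR hG) L := by
  ext X
  unfold atoms KLRAbs.Sys.Atoms
  rw [Set.mem_ofPred_eq, Set.mem_ofPred_eq]
  refine and_congr Iff.rfl (not_congr (exists_congr fun Y => and_congr Iff.rfl
    (exists_congr fun Z => and_congr Iff.rfl ?_)))
  exact iso_iff hC hconv hR hG

/-- the products of the members of a family are members -/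
theorem isProd_of_chq {w : List I} {L : Set (Sm D)} (hF : Family w L) :
    ∀ l : List (Sm D), l ≠ [] → (∀ Y ∈ l, Y ∈ L) → ∃ Z ∈ L, IsProd l Z := by
  intro l
  induction l with
  | nil => intro h; exact absurd rfl h
  | cons Y l ih =>
    intro _ hmem
    have hY := hmem Y (List.mem_cons_self)
    by_cases hl : l = []
    · subst hl
      exact ⟨Y, hY, IsProd.single Y⟩
    · obtain ⟨Z, hZ, hp⟩ := ih hl fun X hX => hmem X (List.mem_cons_of_mem _ hX)
      obtain ⟨W, hW, he⟩ := hF.2 Y hY Z hZ
      exact ⟨W, hW, hp.cons Y he⟩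

/-- every member of `L` is a product of members of `P` -/
def Gen (L P : Set (Sm D)) : Prop :=
  ∀ X ∈ L, ∃ l : List (Sm D), (∀ Y ∈ l, Y ∈ P) ∧ IsProd l X

include hC hconv hR hG hL in
/-- the main theorem for ungraded modules: a maximal stably irreducible family of adapted simple
modules has exactly `m` atomic members (`m` = the length of the reduced word), each member of the
family is a convolution product of atomic members, the factors are unique up to order, and each
generating subset contains all atomic members -/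
theorem main {w : List I} (hw : Span.Reduced D.A w) (L : Set (Sm D)) (hmax : MaxFamily w L) :
    (atoms L).Finite ∧ (atoms L).ncard = w.length ∧ Gen L (atoms L) ∧
      (∀ P ⊆ L, Gen L P → atoms L ⊆ P) ∧
      ∀ (l l' : List (Sm D)) (X : Sm D), (∀ Y ∈ l, Y ∈ atoms L) → (∀ Y ∈ l', Y ∈ atoms L) →
        IsProd l X → IsProd l' X → l.Perm l' := by
  have := isDomain_Gr hC hconv
  have := ufd_Gr hC hconv
  have h1 := KLRAbs.Sys.final (sys hC hconv hR hG) w (hspan hC hconv hR hG hL hw) L
    ((maxFamily_iff hC hconv hR hG).1 hmax)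
  rw [← atoms_iff] at h1
  obtain ⟨g1, g2, g3, g4, g5⟩ := h1
  have hb : ∀ X : Sm D, (((sys hC hconv hR hG).b X : Gr hC hconv) : Sh I ℚ) = chq X := by
    intro X
    show ((bas hC hconv X : Gr hC hconv) : Sh I ℚ) = chq X
    rw [bas_apply]
    rfl
  have hprod : ∀ l : List (Sm D),
      ((((l : Multiset (Sm D)).map (sys hC hconv hR hG).b).prod : Gr hC hconv) : Sh I ℚ) =
        (l.map chq).prod := by
    intro l
    rw [Multiset.map_coe, Multiset.prod_coe]
    induction l with
    | nil => simp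
    | cons Y l ih =>
      rw [List.map_cons, List.prod_cons, List.map_cons, List.prod_cons, ← ih, ← hb Y]
      rfl
  refine ⟨g1, g2, ?_, ?_, ?_⟩
  · intro X hX
    obtain ⟨t, ht0, ht1, ht2⟩ := g3 X hX
    induction t using Quotient.inductionOn with
    | h l =>
      have ht1' : ∀ Y ∈ l, Y ∈ atoms L := fun Y hY => ht1 Y (Multiset.mem_coe.2 hY)
      obtain ⟨Z, hZ, hp⟩ := isProd_of_chq hmax.1 l (fun h => ht0 (by rw [h]; rfl))
        (fun Y hY => (ht1' Y hY).1)
      refine ⟨l, ht1', ?_⟩
      have h2 := hp.chq hconv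
      have h3 := congrArg (fun z : Gr hC hconv => (z : Sh I ℚ)) ht2
      have h4 : chq Z = chq X := by
        rw [← h2, ← hprod, ← hb X]
        exact h3
      rw [← chq_inj h4]
      exact hp
  · intro P hP hgen
    refine g4 P hP fun X hX => ?_
    obtain ⟨l, hl1, hl2⟩ := hgen X hX
    refine ⟨(l : Multiset (Sm D)), ?_, fun Y hY => hl1 Y (Multiset.mem_coe.1 hY), ?_⟩
    · intro h
      exact hl2.ne_nil ((Multiset.coe_eq_zero _).1 h)
    · refine Subtype.ext ?_
      rw [hprod, hb, hl2.chq hconv]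
  · intro l l' X hl hl' hX hX'
    have h2 := g5 (l : Multiset (Sm D)) (l' : Multiset (Sm D))
      (fun Y hY => hl Y (Multiset.mem_coe.1 hY)) (fun Y hY => hl' Y (Multiset.mem_coe.1 hY)) (by
        refine Subtype.ext ?_
        rw [hprod, hprod, hX.chq hconv, hX'.chq hconv])
    exact Multiset.coe_eq_coe.1 h2

end Sm

end Pool.Agent.KLR
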