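import Pool.Agent.Work.MP_e487d8_al.Fin.JH
import Pool.Agent.Work.MP_e487d8_al.Mod.MirChr

/-! MP_e487d8_al: mirrors of simple modules, transport of everything in the contract
`Fin/Need.lean`. -/

set_option autoImplicit false

namespace Pool.Agent.KLR

variable {K I : Type} [Field K] [Fintype I] [DecidableEq I] {D : Datum K I}

namespace Mir

variable {n : ℕ} {M N H : Type} [AddCommGroup M] [Module K M]
  [Module (KLRAlg D) M] [IsScalarTower K (KLRAlg D) M]
  [AddCommGroup N] [Module K N] [Module (KLRAlg D) N] [IsScalarTower K (KLRAlg D) N]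
  [AddCommGroup H] [Module K H] [Module (KLRAlg D) H] [IsScalarTower K (KLRAlg D) H]

/-- the mirror of an isomorphism -/
noncomputable def mapEquiv (D : Datum K I) (n : ℕ) {M N : Type} [AddCommGroup M] [Module K M]
    [Module (KLRAlg D) M] [AddCommGroup N] [Module K N] [Module (KLRAlg D) N]
    (g : M ≃ₗ[KLRAlg D] N) : Mir D n M ≃ₗ[KLRAlg D] Mir D n N :=
  LinearEquiv.ofBijective (Tw.map (D.mir n) g.toLinearMap)
    ⟨Tw.map_injective _ g.injective, Tw.map_surjective _ g.surjective⟩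

omit [IsScalarTower K (KLRAlg D) M] [IsScalarTower K (KLRAlg D) N] in
theorem mapEquiv_mk (g : M ≃ₗ[KLRAlg D] N) (u : M) :
    mapEquiv D n g (Tw.mk (D.mir n) u) = Tw.mk (D.mir n) (g u) := rfl

/-- the mirror of a submodule is the corresponding submodule of the mirror -/
noncomputable def subIso (h : IsStrand D n M) (S : Submodule (KLRAlg D) M) :
    Mir D n S ≃ₗ[KLRAlg D] subEquiv h S :=
  LinearEquiv.ofBijective (LinearMap.codRestrict (subEquiv h S) (Tw.map (D.mir n) S.subtype)
    fun u => ((Tw.mk (D.mir n)).symm u).2)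
    ⟨fun u v huv => by
      have h1 := congrArg Subtype.val huv
      exact Tw.map_injective (D.mir n) S.subtype_injective h1,
     fun u => ⟨Tw.mk (D.mir n) ⟨(Tw.mk (D.mir n)).symm u.1, u.2⟩, Subtype.ext rfl⟩⟩

omit [Module K M] [IsScalarTower K (KLRAlg D) M] in
theorem cast {m n : ℕ} (h : m = n) : Nonempty (Mir D m M ≃ₗ[KLRAlg D] Mir D n M) := by
  subst h
  exact ⟨LinearEquiv.refl _ _⟩

omit [IsScalarTower K (KLRAlg D) M] [IsScalarTower K (KLRAlg D) N] in
theorem quo (h : Quo D N M) : Quo D (Mir D n N) (Mir D n M) := by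
  obtain ⟨f, hf⟩ := h
  exact ⟨Tw.map (D.mir n) f, Tw.map_surjective _ hf⟩

omit [IsScalarTower K (KLRAlg D) N] in
theorem subQ (hM : IsStrand D n M) (h : SubQ D N M) : SubQ D (Mir D n N) (Mir D n M) := by
  obtain ⟨S, f, hf⟩ := h
  refine ⟨subEquiv hM S, (Tw.map (D.mir n) f).comp (subIso hM S).symm.toLinearMap, ?_⟩
  rw [LinearMap.coe_comp]
  exact (Tw.map_surjective _ hf).comp (subIso hM S).symm.surjective

end Mir

/-! ### transport along isomorphisms -/

section

variable {M M' N N' : Type} [AddCommGroup M] [Module (KLRAlg D) M] [AddCommGroup M']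
  [Module (KLRAlg D) M'] [AddCommGroup N] [Module (KLRAlg D) N] [AddCommGroup N']
  [Module (KLRAlg D) N']

theorem Quo.congr (f : N ≃ₗ[KLRAlg D] N') (g : M ≃ₗ[KLRAlg D] M') (h : Quo D N M) :
    Quo D N' M' := by
  obtain ⟨p, hp⟩ := h
  refine ⟨f.toLinearMap.comp (p.comp g.symm.toLinearMap), ?_⟩
  rw [LinearMap.coe_comp, LinearMap.coe_comp]
  exact f.surjective.comp (hp.comp g.symm.surjective)

theorem SubQ.congr (f : N ≃ₗ[KLRAlg D] N') (g : M ≃ₗ[KLRAlg D] M') (h : SubQ D N M) :
    SubQ D N' M' := by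
  obtain ⟨S, p, hp⟩ := h
  refine ⟨S.map g.toLinearMap, f.toLinearMap.comp (p.comp (g.submoduleMap S).symm.toLinearMap), ?_⟩
  rw [LinearMap.coe_comp, LinearMap.coe_comp]
  exact f.surjective.comp (hp.comp (g.submoduleMap S).symm.surjective)

theorem SubQ.of_injective {S : Type} [AddCommGroup S] [Module (KLRAlg D) S]
    (g : S →ₗ[KLRAlg D] M) (hg : Function.Injective g) (h : SubQ D N S) : SubQ D N M := by
  obtain ⟨T, p, hp⟩ := h
  have e : T ≃ₗ[KLRAlg D] T.map g := Submodule.equivMapOfInjective g hg T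
  refine ⟨T.map g, p.comp e.symm.toLinearMap, ?_⟩
  rw [LinearMap.coe_comp]
  exact hp.comp e.symm.surjective

theorem Quo.strand {n : ℕ} (hM : IsStrand D n M) (h : Quo D N M) : IsStrand D n N := by
  obtain ⟨f, hf⟩ := h
  exact
    { one := fun k hk u => by
        obtain ⟨u, rfl⟩ := hf u
        rw [← map_smul, hM.one k hk]
      zero := fun k hk i u => by
        obtain ⟨u, rfl⟩ := hf u
        rw [← map_smul, hM.zero k hk, map_zero] }

theorem SubQ.strand {n : ℕ} (hM : IsStrand D n M) (h : SubQ D N M) : IsStrand D n N := by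
  obtain ⟨S, h⟩ := h
  have hS : IsStrand D n S :=
    { one := fun k hk u => Subtype.ext (hM.one k hk u)
      zero := fun k hk i u => Subtype.ext (hM.zero k hk i u) }
  exact Quo.strand hS h

end

namespace SMod

/-- the mirror of a simple module -/
@[reducible] noncomputable def mir (X : SMod D) : SMod D where
  n := X.n
  M := Mir D X.n X.M
  smp := Mir.smp X.smp

@[simp] theorem n_mir (X : SMod D) : X.mir.n = X.n := rfl

/-- the character of the mirror: the words are reversed -/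
theorem ch_mir (X : SMod D) (ν : List I) : X.mir.ch ν = X.ch ν.reverse :=
  Mir.chr_mir (D := D) (n := X.n) (M := X.M) ν

/-- the mirror of the mirror -/
theorem mir_mir (X : SMod D) : X.mir.mir.Iso X := ⟨(Mir.mirMir X.smp.strand).symm⟩

theorem Iso.mir {X Y : SMod D} (h : X.Iso Y) : X.mir.Iso Y.mir := by
  have hn := n_eq_of_iso h
  obtain ⟨f⟩ := h
  obtain ⟨e⟩ := Mir.cast (D := D) (M := Y.M) hn
  exact ⟨(Mir.mapEquiv D X.n f).trans e⟩

theorem iso_mir_iff {X Y : SMod D} : X.mir.Iso Y.mir ↔ X.Iso Y :=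
  ⟨fun h => (X.mir_mir.symm.trans h.mir).trans Y.mir_mir, Iso.mir⟩

theorem wt_mir (X : SMod D) (i : I) : X.mir.wt i = X.wt i := by
  obtain ⟨ν, hν⟩ := X.exists_ch_ne
  have h1 : X.mir.ch ν.reverse ≠ 0 := by rwa [ch_mir, List.reverse_reverse]
  rw [← X.mir.count_eq_wt h1, ← X.count_eq_wt hν, List.count_reverse]

theorem pr_mir (i : I) (X : SMod D) : pr i X.mir = pr i X := by
  unfold pr
  exact Finset.sum_congr rfl fun j _ => by rw [wt_mir]

theorem dd_mir (X Y : SMod D) : dd X.mir Y.mir = dd X Y := by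
  unfold dd
  exact Finset.sum_congr rfl fun i _ => Finset.sum_congr rfl fun j _ => by rw [wt_mir, wt_mir]

/-- `(X ∘ Y)^mir = Y^mir ∘ X^mir` -/
noncomputable def mirConv (X Y : SMod D) :
    Y.mir.conv X.mir ≃ₗ[KLRAlg D] Mir D (X.n + Y.n) (X.conv Y) :=
  Mir.convMir (D := D) (M := X.M) (N := Y.M) X.smp.strand Y.smp.strand

/-- `X ∘ Y = (Y^mir ∘ X^mir)^mir` -/
noncomputable def convE (X Y : SMod D) :
    X.conv Y ≃ₗ[KLRAlg D] Mir D (X.n + Y.n) (Y.mir.conv X.mir) :=
  (Mir.mirMir (Conv.isStrand X.smp.strand Y.smp.strand)).trans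
    (Mir.mapEquiv D (X.n + Y.n) (mirConv X Y).symm)

theorem comm_mir {X Y : SMod D} (h : X.Comm Y) : Y.mir.Comm X.mir := by
  have h1 : IsSimpleModule (KLRAlg D) (Mir D (X.n + Y.n) (X.conv Y)) :=
    Mir.isSimple (Conv.isStrand X.smp.strand Y.smp.strand) h
  exact IsSimpleModule.congr (mirConv X Y)

theorem Comm.congr {X X' Y Y' : SMod D} (hX : X.Iso X') (hY : Y.Iso Y') (h : X.Comm Y) :
    X'.Comm Y' := by
  have hn := n_eq_of_iso hX
  obtain ⟨f⟩ := hX
  obtain ⟨g⟩ := hY
  have h1 : IsSimpleModule (KLRAlg D) (X.conv Y) := h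
  have e : X'.conv Y' ≃ₗ[KLRAlg D] X.conv Y := by
    refine LinearEquiv.ofLinearMap
      (Conv.map hn.symm f.symm.toLinearMap g.symm.toLinearMap)
      (Conv.map hn f.toLinearMap g.toLinearMap) ?_ ?_
    · apply Conv.hom_ext
      intro u v
      rw [LinearMap.comp_apply, Conv.map_mk, Conv.map_mk]
      simp
    · apply Conv.hom_ext
      intro u v
      rw [LinearMap.comp_apply, Conv.map_mk, Conv.map_mk]
      simp
  exact IsSimpleModule.congr e

theorem comm_mir_iff {X Y : SMod D} : Y.mir.Comm X.mir ↔ X.Comm Y :=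
  ⟨fun h => (comm_mir h).congr X.mir_mir Y.mir_mir, comm_mir⟩

theorem real_mir {X : SMod D} (h : X.Real) : X.mir.Real := comm_mir h

theorem real_mir_iff {X : SMod D} : X.mir.Real ↔ X.Real := comm_mir_iff

/-- quotients of a mirror -/
theorem quo_mir {n : ℕ} {M : Type} [AddCommGroup M] [Module K M] [Module (KLRAlg D) M]
    (hM : IsStrand D n M) {Z : SMod D} (h : Quo D Z.M M) : Quo D Z.mir.M (Mir D n M) := by
  have h1 : n = Z.n := strand_unique (M := Z.M) (Quo.strand hM h) Z.smp.strand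
  subst h1
  exact Mir.quo (D := D) (N := Z.M) h

theorem subQ_mir {n : ℕ} {M : Type} [AddCommGroup M] [Module K M] [Module (KLRAlg D) M]
    [IsScalarTower K (KLRAlg D) M]
    (hM : IsStrand D n M) {Z : SMod D} (h : SubQ D Z.M M) : SubQ D Z.mir.M (Mir D n M) := by
  have h1 : n = Z.n := strand_unique (M := Z.M) (SubQ.strand hM h) Z.smp.strand
  subst h1
  exact Mir.subQ (D := D) (N := Z.M) hM h

theorem quo_conv_mir {X Y Z : SMod D} (h : Quo D Z.M (X.conv Y)) :
    Quo D Z.mir.M (Y.mir.conv X.mir) :=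
  (quo_mir (Conv.isStrand X.smp.strand Y.smp.strand) h).congr (LinearEquiv.refl _ _)
    (mirConv X Y).symm

theorem quo_iso {Z Z' : SMod D} {M : Type} [AddCommGroup M] [Module (KLRAlg D) M]
    (h : Z.Iso Z') (hq : Quo D Z.M M) : Quo D Z'.M M :=
  h.elim fun f => hq.congr f (LinearEquiv.refl _ _)

theorem subQ_iso {Z Z' : SMod D} {M : Type} [AddCommGroup M] [Module (KLRAlg D) M]
    (h : Z.Iso Z') (hq : SubQ D Z.M M) : SubQ D Z'.M M :=
  h.elim fun f => hq.congr f (LinearEquiv.refl _ _)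

/-- `X^mir^mir ∘ Y^mir^mir = X ∘ Y` -/
theorem nonempty_mirMirConv (X Y : SMod D) :
    Nonempty (X.mir.mir.conv Y.mir.mir ≃ₗ[KLRAlg D] X.conv Y) := by
  refine ⟨LinearEquiv.ofLinearMap
      (Conv.map rfl (Mir.mirMir X.smp.strand).symm.toLinearMap
        (Mir.mirMir Y.smp.strand).symm.toLinearMap)
      (Conv.map rfl (Mir.mirMir X.smp.strand).toLinearMap
        (Mir.mirMir Y.smp.strand).toLinearMap) ?_ ?_⟩
  · apply Conv.hom_ext
    intro u v
    rw [LinearMap.comp_apply, Conv.map_mk, Conv.map_mk]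
    rfl
  · apply Conv.hom_ext
    intro u v
    rw [LinearMap.comp_apply, Conv.map_mk, Conv.map_mk]
    rfl

theorem quo_conv_mir_iff {X Y Z : SMod D} :
    Quo D Z.mir.M (Y.mir.conv X.mir) ↔ Quo D Z.M (X.conv Y) := by
  refine ⟨fun h => ?_, quo_conv_mir⟩
  have h1 := quo_conv_mir h
  obtain ⟨e⟩ := nonempty_mirMirConv X Y
  exact quo_iso Z.mir_mir (h1.congr (LinearEquiv.refl _ _) e)

theorem subQ_conv_mir {X Y Z : SMod D} (h : SubQ D Z.M (X.conv Y)) :
    SubQ D Z.mir.M (Y.mir.conv X.mir) :=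
  (subQ_mir (Conv.isStrand X.smp.strand Y.smp.strand) h).congr (LinearEquiv.refl _ _)
    (mirConv X Y).symm

theorem subQ_conv_mir_iff {X Y Z : SMod D} :
    SubQ D Z.mir.M (Y.mir.conv X.mir) ↔ SubQ D Z.M (X.conv Y) := by
  refine ⟨fun h => ?_, subQ_conv_mir⟩
  have h1 := subQ_conv_mir h
  obtain ⟨e⟩ := nonempty_mirMirConv X Y
  exact subQ_iso Z.mir_mir (h1.congr (LinearEquiv.refl _ _) e)

theorem iso_conv_mir {X Y Z : SMod D} (h : Nonempty (X.conv Y ≃ₗ[KLRAlg D] Z.M)) :
    Nonempty (Y.mir.conv X.mir ≃ₗ[KLRAlg D] Z.mir.M) := by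
  obtain ⟨f⟩ := h
  have h1 : X.n + Y.n = Z.n := strand_unique (M := Z.M)
    (Quo.strand (Conv.isStrand X.smp.strand Y.smp.strand) ⟨f.toLinearMap, f.surjective⟩)
    Z.smp.strand
  obtain ⟨e⟩ := Mir.cast (D := D) (M := Z.M) h1
  exact ⟨((mirConv X Y).trans (Mir.mapEquiv D (X.n + Y.n) f)).trans e⟩

/-- the mirror of a map `Y^mir ∘ X^mir → H` is a map `X ∘ Y → H^mir`; the constituents of its
kernel -/
theorem exists_mir_hom {X Y H : SMod D} (f : Y.mir.conv X.mir →ₗ[KLRAlg D] H.M)
    (hf : Function.Surjective f) :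
    ∃ g : X.conv Y →ₗ[KLRAlg D] H.mir.M, Function.Surjective g ∧
      ∀ Z : SMod D, SubQ D Z.M (LinearMap.ker g) → SubQ D Z.mir.M (LinearMap.ker f) := by
  have hs : IsStrand D (X.n + Y.n) (X.conv Y) := Conv.isStrand X.smp.strand Y.smp.strand
  have hs' : IsStrand D (X.n + Y.n) (Y.mir.conv X.mir) := by
    rw [Nat.add_comm]
    exact Conv.isStrand Y.mir.smp.strand X.mir.smp.strand
  have hn : X.n + Y.n = H.n := strand_unique (M := H.M) (Quo.strand hs' ⟨f, hf⟩) H.smp.strand
  have key : ∀ m, m = X.n + Y.n → ∃ g : X.conv Y →ₗ[KLRAlg D] Mir D m H.M,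
      Function.Surjective g ∧
      ∀ Z : SMod D, SubQ D Z.M (LinearMap.ker g) → SubQ D Z.mir.M (LinearMap.ker f) := by
    rintro m rfl
    refine ⟨(Tw.map (D.mir (X.n + Y.n)) f).comp (convE X Y).toLinearMap, ?_, ?_⟩
    · rw [LinearMap.coe_comp]
      exact (Tw.map_surjective _ hf).comp (convE X Y).surjective
    · intro Z hZ
      have hk : IsStrand D (X.n + Y.n) (LinearMap.ker f) :=
        { one := fun k hk u => Subtype.ext (hs'.one k hk u)
          zero := fun k hk i u => Subtype.ext (hs'.zero k hk i u) }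
      -- the kernel of `g` is the mirror of the kernel of `f`
      have e1 : LinearMap.ker ((Tw.map (D.mir (X.n + Y.n)) f).comp (convE X Y).toLinearMap)
          ≃ₗ[KLRAlg D] Mir D (X.n + Y.n) (LinearMap.ker f) := by
        set P : Submodule (KLRAlg D) (X.conv Y) :=
          LinearMap.ker ((Tw.map (D.mir (X.n + Y.n)) f).comp (convE X Y).toLinearMap) with hP
        suffices h : P ≃ₗ[KLRAlg D] Mir.subEquiv hs' (LinearMap.ker f) from
          h.trans (Mir.subIso hs' (LinearMap.ker f)).symm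
        refine LinearEquiv.ofBijective (LinearMap.codRestrict (Mir.subEquiv hs' (LinearMap.ker f))
          ((convE X Y).toLinearMap.comp P.subtype) fun u => u.2) ⟨?_, ?_⟩
        · intro u v huv
          have h1 := congrArg Subtype.val huv
          exact Subtype.ext ((convE X Y).injective h1)
        · intro u
          obtain ⟨v, hv⟩ := (convE X Y).surjective u.1
          refine ⟨⟨v, ?_⟩, Subtype.ext hv⟩
          have h2 : f ((Tw.mk (D.mir (X.n + Y.n))).symm u.1) = 0 := u.2
          rw [LinearMap.mem_ker, LinearMap.comp_apply]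
          show Tw.map (D.mir (X.n + Y.n)) f (convE X Y v) = 0
          rw [hv]
          exact h2
      have h1 : SubQ D Z.M (Mir D (X.n + Y.n) (LinearMap.ker f)) :=
        hZ.congr (LinearEquiv.refl _ _) e1
      have h2 := subQ_mir (Mir.isStrand hk) h1
      exact h2.congr (LinearEquiv.refl _ _) (Mir.mirMir hk).symm
  exact key H.n hn.symm

/-- `e_i^max` and `ε_i` of mirrors -/
theorem emax_mir_iff {i : I} {a : ℕ} {X Y : SMod D} : Emax i a X.mir Y.mir ↔
    X.n = a + Y.n ∧ (∀ ν, X.ch (ν ++ List.replicate a i) = a.factorial * Y.ch ν) ∧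
      ∀ ν, Y.ch (ν ++ [i]) = 0 := by
  unfold Emax
  rw [n_mir, n_mir]
  refine and_congr_right fun _ => and_congr ?_ ?_
  · constructor
    · intro h ν
      have h1 := h ν.reverse
      rw [ch_mir, ch_mir, List.reverse_append, List.reverse_reverse, List.reverse_replicate] at h1
      exact h1
    · intro h ν
      rw [ch_mir, ch_mir, List.reverse_append, List.reverse_replicate]
      exact h ν.reverse
  · constructor
    · intro h ν
      have h1 := h ν.reverse
      rw [ch_mir, List.reverse_cons, List.reverse_reverse] at h1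
      exact h1
    · intro h ν
      rw [ch_mir, List.reverse_cons]
      exact h ν.reverse

end SMod

end Pool.Agent.KLR
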