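import Pool.Agent.Work.MP_e487d8_al.Conv.Defs
import Pool.Agent.Work.MP_e487d8_al.Mod.Defs
import Pool.Agent.Work.MP_e487d8_al.Span.Weyl

/-! MP_e487d8_al: graded modules, adapted modules, stably irreducible families.

All modules are finite dimensional graded modules over the KLR algebra (quiver Hecke algebra) of a
symmetric generalised Cartan matrix. -/

set_option autoImplicit false

namespace Pool.Agent.KLR

variable {K I : Type} [Field K] [Fintype I] [DecidableEq I]

/-- A finite dimensional graded module over `R(n) = ⊕_{|β| = n} R(β)`. The idempotents `e(ν)` have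
degree `0`, the dots `x_k` have degree `2` and the crossing `t_k` of a strand of colour `i` and a
strand of colour `j` has degree `-(α_i, α_j) = - A i j`. -/
structure GMod (D : Datum K I) : Type 1 where
  /-- the number of strands -/
  n : ℕ
  M : Type
  [acg : AddCommGroup M]
  [modK : Module K M]
  [modR : Module (KLRAlg D) M]
  [tow : IsScalarTower K (KLRAlg D) M]
  strand : IsStrand D n M
  fd : FiniteDimensional K M
  /-- the homogeneous vectors of degree `d` -/
  gr : ℤ → Submodule K M
  internal : DirectSum.IsInternal gr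
  e_mem : ∀ k i d u, u ∈ gr d → D.e k i • u ∈ gr d
  x_mem : ∀ k d u, u ∈ gr d → D.x k • u ∈ gr (d + 2)
  t_mem : ∀ k i j d u, u ∈ gr d → D.t k • D.e k i • D.e (k + 1) j • u ∈ gr (d - D.A i j)

attribute [instance] GMod.acg GMod.modK GMod.modR GMod.tow

namespace GMod

variable {D : Datum K I}

/-- a graded submodule: it is generated by homogeneous vectors -/
def IsGraded (X : GMod D) (N : Submodule (KLRAlg D) X.M) : Prop :=
  N ≤ Submodule.span (KLRAlg D) {v | v ∈ N ∧ ∃ d, v ∈ X.gr d}

/-- irreducible graded module -/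
structure Irr (X : GMod D) : Prop where
  nontrivial : Nontrivial X.M
  simple : ∀ N : Submodule (KLRAlg D) X.M, X.IsGraded N → N = ⊥ ∨ N = ⊤

/-- isomorphic up to a shift of the grading -/
def ShiftIso (X Y : GMod D) : Prop :=
  ∃ (s : ℤ) (f : X.M ≃ₗ[KLRAlg D] Y.M), ∀ d u, u ∈ X.gr d → f u ∈ Y.gr (d + s)

/-- `Z` is isomorphic up to a shift of the grading to the convolution product `X ∘ Y`, in which
the class of `u ⊗ v` has the degree `deg u + deg v` -/
def IsConv (X Y Z : GMod D) : Prop :=
  ∃ (s : ℤ) (f : Conv D X.n X.M Y.M ≃ₗ[KLRAlg D] Z.M), ∀ a b u v, u ∈ X.gr a → v ∈ Y.gr b →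
    f (Conv.mk D X.n X.M Y.M u v) ∈ Z.gr (a + b + s)

/-- `IsProd [X_1, ..., X_r] Z`: `Z` is isomorphic up to a shift to `X_1 ∘ (X_2 ∘ ... ∘ X_r)`
(`r ≥ 1`) -/
inductive IsProd : List (GMod D) → GMod D → Prop
  | single (X Z : GMod D) : X.ShiftIso Z → IsProd [X] Z
  | cons (X Y Z : GMod D) (l : List (GMod D)) : IsProd l Y → X.IsConv Y Z → IsProd (X :: l) Z

end GMod

/-- the word `i_1^{a_1} i_2^{a_2} ... i_m^{a_m}` -/
def powWord {I : Type} : List I → List ℕ → List I
  | i :: w, a :: as => List.replicate a i ++ powWord w as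
  | _, _ => []

variable {D : Datum K I}

/-- `X` is adapted to the word `w = i_1 i_2 ... i_m`: the Feigin homomorphism
`Ψ_w(f) = ∑_a f(θ_{i_1}^{(a_1)} ⋯ θ_{i_m}^{(a_m)}) t_1^{a_1} ⋯ t_m^{a_m}` does not kill the
character of `X`, that is, `e(i_1^{a_1} ⋯ i_m^{a_m}) X ≠ 0` for some `a_1, ..., a_m` -/
def GMod.Adapted (w : List I) (X : GMod D) : Prop :=
  ∃ a : List ℕ, a.length = w.length ∧ (powWord w a).length = X.n ∧
    ∃ u : X.M, D.eW (powWord w a) • u ≠ 0

/-- a stably irreducible family of `w`-adapted irreducible modules of `R(n)`, `n ≥ 1` -/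
structure IsFamily (w : List I) (L : Set (GMod D)) : Prop where
  pos : ∀ X ∈ L, 0 < X.n
  irr : ∀ X ∈ L, X.Irr
  adapted : ∀ X ∈ L, X.Adapted w
  conv : ∀ X ∈ L, ∀ Y ∈ L, ∃ Z ∈ L, X.IsConv Y Z

/-- a maximal stably irreducible family of `w`-adapted irreducible modules -/
structure IsMaxFamily (w : List I) (L : Set (GMod D)) : Prop extends IsFamily w L where
  max : ∀ L', IsFamily w L' → L ⊆ L' → L' = L

/-- the atomic members of a family -/
def atoms (L : Set (GMod D)) : Set (GMod D) :=
  {X | X ∈ L ∧ ¬ ∃ Y ∈ L, ∃ Z ∈ L, Y.IsConv Z X}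

/-- each member of `L` is isomorphic up to a shift to a product of members of `P` -/
def Generates (P L : Set (GMod D)) : Prop :=
  ∀ X ∈ L, ∃ l : List (GMod D), (∀ Y ∈ l, Y ∈ P) ∧ GMod.IsProd l X

/-- `L` is `k`-generated: there is a minimal set `P` of atomic members which generates `L`, and it
has `k` elements -/
def IsGenerated (k : ℕ) (L : Set (GMod D)) : Prop :=
  ∃ P : Set (GMod D), P.Finite ∧ P.ncard = k ∧ P ⊆ atoms L ∧ Generates P L ∧
    ∀ Q, Q ⊆ P → Generates Q L → Q = P

/-- `L` is, up to isomorphism and shifts, the free commutative monoid (without its unit element) on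
the set `P`, and the members of `P` are representatives of the atomic members of `L` up to
isomorphism and shifts -/
structure IsFreeOn (P L : Set (GMod D)) : Prop where
  atom : P ⊆ atoms L
  atoms_eq : ∀ X ∈ atoms L, ∃! Y, Y ∈ P ∧ X.ShiftIso Y
  gen : Generates P L
  uniq : ∀ (X : GMod D) (l l' : List (GMod D)), (∀ Y ∈ l, Y ∈ P) → (∀ Y ∈ l', Y ∈ P) →
    GMod.IsProd l X → GMod.IsProd l' X → l.Perm l'
  all : ∀ l : List (GMod D), l ≠ [] → (∀ Y ∈ l, Y ∈ P) → ∃ X ∈ L, GMod.IsProd l X

/-- the final statement -/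
def S_final (D : Datum K I) : Prop :=
  ∀ w : List I, Work.MP_e487d8_al.Span.Reduced D.A w → ∀ L : Set (GMod D), IsMaxFamily w L →
    IsGenerated w.length L ∧
    ∃ P : Set (GMod D), P.Finite ∧ P.ncard = w.length ∧ IsFreeOn P L

end Pool.Agent.KLR
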