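import Pool.Agent.Work.MP_e487d8_al.Rmat.Col
import Pool.Agent.Work.MP_e487d8_al.Fin.Statement

/-! MP_e487d8_al: modules given by operators (`St.Mod`) and modules over `KLRAlg D`. -/

set_option autoImplicit false

namespace Pool.Agent.KLR.St

variable {K I : Type} [Field K] [Fintype I] [DecidableEq I] {D : Datum K I}

namespace Mod

variable (X : Mod D)

/-- the operator `e k i` -/
def eL (k : ℕ) (i : I) : Module.End K X.M := IsLinearMap.mk' (X.e k i) (X.e_lin k i)
/-- the operator `x k` -/
def xL (k : ℕ) : Module.End K X.M := IsLinearMap.mk' (X.x k) (X.x_lin k)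
/-- the operator `t k` -/
def tL (k : ℕ) : Module.End K X.M := IsLinearMap.mk' (X.t k) (X.t_lin k)

theorem eL_apply (k : ℕ) (i : I) (u : X.M) : X.eL k i u = X.e k i u := rfl
theorem xL_apply (k : ℕ) (u : X.M) : X.xL k u = X.x k u := rfl
theorem tL_apply (k : ℕ) (u : X.M) : X.tL k u = X.t k u := rfl

theorem e_zero (k : ℕ) (i : I) : X.e k i 0 = 0 := (X.eL k i).map_zero
theorem x_zero (k : ℕ) : X.x k 0 = 0 := (X.xL k).map_zero
theorem t_zero (k : ℕ) : X.t k 0 = 0 := (X.tL k).map_zero

theorem e_idem (k : ℕ) (i : I) (u : X.M) : X.e k i (X.e k i u) = X.e k i u := by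
  rw [X.ee, if_pos rfl]

theorem e_ne {k : ℕ} {i j : I} {u : X.M} (h : X.e k i u = u) (hij : j ≠ i) : X.e k j u = 0 := by
  rw [← h, X.ee, if_neg hij]

theorem ext1 {k : ℕ} (h : k < X.n) {f g : Module.End K X.M}
    (hc : ∀ i v, X.e k i v = v → f v = g v) : f = g := by
  ext u
  rw [← X.sum_e k u h, map_sum, map_sum]
  exact Finset.sum_congr rfl fun i _ => hc i _ (X.e_idem k i u)

theorem ext2 {k : ℕ} (h : k + 1 < X.n) {f g : Module.End K X.M}
    (hc : ∀ i j v, X.e k i v = v → X.e (k + 1) j v = v → f v = g v) : f = g := by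
  refine X.ext1 (k := k) (by omega) fun i v hi => ?_
  rw [← X.sum_e (k + 1) v h, map_sum, map_sum]
  refine Finset.sum_congr rfl fun j _ => hc i j _ ?_ (X.e_idem _ j v)
  rw [X.ee_comm, hi]

theorem ext3 {k : ℕ} (h : k + 2 < X.n) {f g : Module.End K X.M}
    (hc : ∀ i j l v, X.e k i v = v → X.e (k + 1) j v = v → X.e (k + 2) l v = v → f v = g v) :
    f = g := by
  refine X.ext2 (k := k) (by omega) fun i j v hi hj => ?_
  rw [← X.sum_e (k + 2) v h, map_sum, map_sum]
  refine Finset.sum_congr rfl fun l _ => hc i j l _ ?_ ?_ (X.e_idem _ l v)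
  · rw [X.ee_comm, hi]
  · rw [X.ee_comm, hj]

theorem sum_apply (f : I → Module.End K X.M) (u : X.M) : (∑ i, f i) u = ∑ i, f i u :=
  LinearMap.sum_apply _ _ _

theorem dl_apply {k : ℕ} {i j : I} {v : X.M} (h : X.e k i v = v) (h' : X.e (k + 1) j v = v) :
    (∑ i, X.eL k i * X.eL (k + 1) i) v = if i = j then v else 0 := by
  rw [X.sum_apply, Finset.sum_eq_single j]
  · change X.e k j (X.e (k + 1) j v) = _
    rw [h']
    split_ifs with hij
    · rw [← hij, h]
    · exact X.e_ne h (Ne.symm hij)
  · intro l _ hl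
    change X.e k l (X.e (k + 1) l v) = _
    rw [X.e_ne h' hl, X.e_zero]
  · intro hh
    exact absurd (Finset.mem_univ j) hh

theorem dl_zero {k : ℕ} (h : X.n ≤ k + 1) : (∑ i, X.eL k i * X.eL (k + 1) i) = 0 := by
  refine Finset.sum_eq_zero fun i _ => LinearMap.ext fun u => ?_
  change X.e k i (X.e (k + 1) i u) = 0
  rw [X.e_out _ _ _ h, X.e_zero]

theorem tL_zero {k : ℕ} (h : X.n ≤ k + 1) : X.tL k = 0 :=
  LinearMap.ext fun u => X.t_out k u h

theorem pow_apply (k l : ℕ) (q : ℕ) (v : X.M) :
    ((X.xL k - X.xL l) ^ q) v = (fun v => X.x k v - X.x l v)^[q] v := by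
  rw [Module.End.pow_apply]
  rfl

theorem rels : Rels D X.eL X.xL X.tL where
  ee k i j := by
    ext u
    change X.e k i (X.e k j u) = _
    rw [X.ee]
    split_ifs <;> rfl
  ee_comm k l i j := LinearMap.ext fun u => X.ee_comm k l i j u
  xx k l := LinearMap.ext fun u => X.xx k l u
  xe k l i := LinearMap.ext fun u => X.xe k l i u
  xE k := by
    ext u
    change X.x k ((∑ i, X.eL k i) u) = X.x k u
    rw [X.sum_apply]
    by_cases h : k < X.n
    · exact congrArg _ (X.sum_e k u h)
    · rw [X.x_out k _ (by omega), X.x_out k _ (by omega)]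
  tE k := by
    ext u
    change X.t k ((∑ i, X.eL k i) u) = X.t k u
    rw [X.sum_apply]
    by_cases h : k < X.n
    · exact congrArg _ (X.sum_e k u h)
    · rw [X.t_out k _ (by omega), X.t_out k _ (by omega)]
  tE' k := by
    ext u
    change X.t k ((∑ i, X.eL (k + 1) i) u) = X.t k u
    rw [X.sum_apply]
    by_cases h : k + 1 < X.n
    · exact congrArg _ (X.sum_e (k + 1) u h)
    · rw [X.t_out k _ (by omega), X.t_out k _ (by omega)]
  te0 k i := LinearMap.ext fun u => X.te0 k i u
  te1 k i := LinearMap.ext fun u => X.te1 k i u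
  te k l i h h' := LinearMap.ext fun u => X.te k l i u h h'
  tx k l h h' := LinearMap.ext fun u => X.tx k l u h h'
  tx0 k := by
    by_cases hk : k + 1 < X.n
    · refine X.ext2 hk fun i j v h h' => ?_
      rw [LinearMap.sub_apply, X.dl_apply h h', ← X.tx0 k i j v h h']
      change X.t k (X.x k v) = X.x (k + 1) (X.t k v) - _
      abel
    · rw [X.tL_zero (by omega), X.dl_zero (by omega), zero_mul, mul_zero, sub_zero]
  tx1 k := by
    by_cases hk : k + 1 < X.n
    · refine X.ext2 hk fun i j v h h' => ?_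
      rw [LinearMap.add_apply, X.dl_apply h h', ← X.tx1 k i j v h h']
      change X.t k (X.x (k + 1) v) = X.x k (X.t k v) + _
      abel
    · rw [X.tL_zero (by omega), X.dl_zero (by omega), zero_mul, mul_zero, add_zero]
  tt k := by
    by_cases hk : k + 1 < X.n
    · refine X.ext2 hk fun i j v h h' => ?_
      change X.t k (X.t k v) = _
      rw [X.tt k i j v h h', X.sum_apply, Finset.sum_eq_single i]
      · rw [X.sum_apply, Finset.sum_eq_single j]
        · split_ifs with hij
          · rfl
          · change _ = D.c i j • ((X.xL k - X.xL (k + 1)) ^ D.q i j) (X.e k i (X.e (k + 1) j v))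
            rw [h', h, X.pow_apply]
        · intro l _ hl
          split_ifs with hil
          · rfl
          · change D.c i l • ((X.xL k - X.xL (k + 1)) ^ D.q i l) (X.e k i (X.e (k + 1) l v)) = 0
            rw [X.e_ne h' hl, X.e_zero, map_zero, smul_zero]
        · intro hh
          exact absurd (Finset.mem_univ j) hh
      · intro l _ hl
        rw [X.sum_apply]
        refine Finset.sum_eq_zero fun l' _ => ?_
        split_ifs with hil
        · rfl
        · change D.c l l' • ((X.xL k - X.xL (k + 1)) ^ D.q l l') (X.e k l (X.e (k + 1) l' v)) = 0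
          rw [X.ee_comm, X.e_ne h hl, X.e_zero, map_zero, smul_zero]
      · intro hh
        exact absurd (Finset.mem_univ i) hh
    · rw [X.tL_zero (by omega), zero_mul]
      symm
      refine Finset.sum_eq_zero fun i _ => Finset.sum_eq_zero fun j _ => ?_
      split_ifs
      · rfl
      · ext v
        change D.c i j • ((X.xL k - X.xL (k + 1)) ^ D.q i j) (X.e k i (X.e (k + 1) j v)) = 0
        rw [X.e_out (k + 1) _ _ (by omega), X.e_zero, map_zero, smul_zero]
  far k l h := LinearMap.ext fun u => X.far k l u h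
  braid k := by
    by_cases hk : k + 2 < X.n
    · refine X.ext3 hk fun i j l v h h' h'' => ?_
      change X.t (k + 1) (X.t k (X.t (k + 1) v)) - X.t k (X.t (k + 1) (X.t k v)) = _
      have hs : ∀ i j w, (∑ p ∈ Finset.range (D.q i j), (X.xL k - X.xL (k + 1)) ^ p *
          (X.xL (k + 2) - X.xL (k + 1)) ^ (D.q i j - 1 - p)) w =
          ∑ p ∈ Finset.range (D.q i j), (fun v => X.x k v - X.x (k + 1) v)^[p]
            ((fun v => X.x (k + 2) v - X.x (k + 1) v)^[D.q i j - 1 - p] w) := by
        intro i j w
        rw [LinearMap.sum_apply]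
        refine Finset.sum_congr rfl fun p _ => ?_
        rw [Module.End.mul_apply, X.pow_apply, X.pow_apply]
      rw [X.braid k i j l v h h' h'', X.sum_apply, Finset.sum_eq_single i]
      · rw [X.sum_apply, Finset.sum_eq_single j]
        · by_cases hij : i = j
          · rw [if_neg (fun hh => hh.2 hij), if_pos hij]
            rfl
          · rw [if_neg hij]
            change _ = D.c i j • (∑ p ∈ Finset.range (D.q i j), (X.xL k - X.xL (k + 1)) ^ p *
              (X.xL (k + 2) - X.xL (k + 1)) ^ (D.q i j - 1 - p))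
              (X.e k i (X.e (k + 1) j (X.e (k + 2) i v)))
            by_cases hil : i = l
            · rw [if_pos ⟨hil, hij⟩, hil, h'', h', ← hil, h, hs]
            · rw [if_neg (fun hh => hil hh.1), X.e_ne h'' hil, X.e_zero, X.e_zero, map_zero,
                smul_zero]
        · intro b _ hb
          split_ifs with hil
          · rfl
          · change D.c i b • (∑ p ∈ Finset.range (D.q i b), (X.xL k - X.xL (k + 1)) ^ p *
              (X.xL (k + 2) - X.xL (k + 1)) ^ (D.q i b - 1 - p))
              (X.e k i (X.e (k + 1) b (X.e (k + 2) i v))) = 0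
            rw [X.ee_comm (k + 1) (k + 2), X.e_ne h' hb, X.e_zero, X.e_zero, map_zero, smul_zero]
        · intro hh
          exact absurd (Finset.mem_univ j) hh
      · intro a _ ha
        rw [X.sum_apply]
        refine Finset.sum_eq_zero fun b _ => ?_
        split_ifs with hil
        · rfl
        · change D.c a b • (∑ p ∈ Finset.range (D.q a b), (X.xL k - X.xL (k + 1)) ^ p *
            (X.xL (k + 2) - X.xL (k + 1)) ^ (D.q a b - 1 - p))
            (X.e k a (X.e (k + 1) b (X.e (k + 2) a v))) = 0
          rw [X.ee_comm k (k + 1), X.ee_comm k (k + 2), X.e_ne h ha, X.e_zero, X.e_zero, map_zero,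
            smul_zero]
      · intro hh
        exact absurd (Finset.mem_univ i) hh
    · rw [X.tL_zero (k := k + 1) (by omega), zero_mul, zero_mul, mul_zero, zero_mul, sub_zero]
      symm
      refine Finset.sum_eq_zero fun i _ => Finset.sum_eq_zero fun j _ => ?_
      split_ifs
      · rfl
      · ext v
        change D.c i j • (∑ p ∈ Finset.range (D.q i j), (X.xL k - X.xL (k + 1)) ^ p *
            (X.xL (k + 2) - X.xL (k + 1)) ^ (D.q i j - 1 - p))
            (X.e k i (X.e (k + 1) j (X.e (k + 2) i v))) = 0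
        rw [X.e_out (k + 2) _ _ (by omega), X.e_zero, X.e_zero, map_zero, smul_zero]

/-- the action of the KLR algebra -/
noncomputable def act : KLRAlg D →ₐ[K] Module.End K X.M := liftHom X.rels

theorem act_e (k : ℕ) (i : I) (u : X.M) : X.act (D.e k i) u = X.e k i u := by
  rw [act, liftHom_e]
  rfl

theorem act_x (k : ℕ) (u : X.M) : X.act (D.x k) u = X.x k u := by
  rw [act, liftHom_x]
  rfl

theorem act_t (k : ℕ) (u : X.M) : X.act (D.t k) u = X.t k u := by
  rw [act, liftHom_t]
  rfl

theorem act_sum_e (k : ℕ) (u : X.M) : X.act (D.E k) u = ∑ i, X.e k i u := by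
  unfold Datum.E
  rw [map_sum, X.sum_apply]
  exact Finset.sum_congr rfl fun i _ => X.act_e k i u

end Mod

/-- the graded module over `KLRAlg D` -/
noncomputable def GMod.toG (X : GMod D) : KLR.GMod D where
  n := X.n
  M := X.M
  modR := Module.compHom X.M (X.act : KLRAlg D →+* Module.End K X.M)
  tow :=
    letI : Module (KLRAlg D) X.M := Module.compHom X.M (X.act : KLRAlg D →+* Module.End K X.M)
    { smul_assoc := fun r a u => by
        change X.act (r • a) u = r • X.act a u
        rw [map_smul]
        rfl }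
  strand :=
    letI : Module (KLRAlg D) X.M := Module.compHom X.M (X.act : KLRAlg D →+* Module.End K X.M)
    { one := fun k hk u => by
        change X.act (D.E k) u = u
        rw [X.act_sum_e, X.sum_e k u hk]
      zero := fun k hk i u => by
        change X.act (D.e k i) u = 0
        rw [X.act_e, X.e_out k i u hk] }
  fd := X.fin
  gr := X.gr
  internal := X.internal
  e_mem k i d u hu := by
    change X.act (D.e k i) u ∈ X.gr d
    rw [X.act_e]
    exact X.e_gr k i d u hu
  x_mem k d u hu := by
    change X.act (D.x k) u ∈ X.gr (d + 2)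
    rw [X.act_x]
    exact X.x_gr k d u hu
  t_mem k i j d u hu := by
    change X.act (D.t k) (X.act (D.e k i) (X.act (D.e (k + 1) j) u)) ∈ X.gr (d - D.A i j)
    rw [X.act_t, X.act_e, X.act_e]
    refine X.t_gr k i j d _ (X.e_gr _ _ _ _ (X.e_gr _ _ _ _ hu)) (X.e_idem _ _ _) ?_
    rw [X.ee_comm, X.e_idem]

namespace GMod

variable (X Y Z : GMod D)

theorem toG_n : X.toG.n = X.n := rfl
theorem toG_smul (a : KLRAlg D) (u : X.M) :
    (HSMul.hSMul (α := KLRAlg D) (β := X.toG.M) a u : X.toG.M) = X.act a u := rfl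
theorem toG_e (k : ℕ) (i : I) (u : X.M) :
    (HSMul.hSMul (α := KLRAlg D) (β := X.toG.M) (D.e k i) u : X.toG.M) = X.e k i u :=
  X.act_e k i u
theorem toG_x (k : ℕ) (u : X.M) :
    (HSMul.hSMul (α := KLRAlg D) (β := X.toG.M) (D.x k) u : X.toG.M) = X.x k u :=
  X.act_x k u
theorem toG_t (k : ℕ) (u : X.M) :
    (HSMul.hSMul (α := KLRAlg D) (β := X.toG.M) (D.t k) u : X.toG.M) = X.t k u :=
  X.act_t k u

end GMod

section ofM

variable {n : ℕ} {M : Type} [AddCommGroup M] [Module K M] [Module (KLRAlg D) M]
  [IsScalarTower K (KLRAlg D) M]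

theorem lin_smul (a : KLRAlg D) : IsLinearMap K fun u : M => a • u where
  map_add u v := smul_add a u v
  map_smul r u := smul_comm a r u

omit [Module K M] [IsScalarTower K (KLRAlg D) M] in
theorem pow_smul_iter (k l q : ℕ) (v : M) :
    (fun v : M => D.x k • v - D.x l • v)^[q] v = (D.x k - D.x l) ^ q • v := by
  induction q with
  | zero => rw [pow_zero, one_smul]; rfl
  | succ q ih => rw [Function.iterate_succ_apply', ih, pow_succ', mul_smul, sub_smul]

/-- the operators of a module over `KLRAlg D` with `n` strands -/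
noncomputable def ofM (h : IsStrand D n M) : Mod D where
  n := n
  M := M
  e k i u := D.e k i • u
  x k u := D.x k • u
  t k u := D.t k • u
  e_lin k i := lin_smul _
  x_lin k := lin_smul _
  t_lin k := lin_smul _
  sum_e k u hk := by
    rw [← Finset.sum_smul]
    exact h.one k hk u
  e_out k i u hk := h.zero k hk i u
  x_out k u hk := h.x_smul_zero hk u
  t_out k u hk := h.t_smul_zero hk u
  ee k i j u := by
    rw [← mul_smul]
    split_ifs with hij
    · rw [hij, D.e_idem]
    · rw [D.e_mul_e_ne k hij, zero_smul]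
  ee_comm k l i j u := by rw [← mul_smul, D.e_comm, mul_smul]
  xx k l u := by rw [← mul_smul, D.x_comm, mul_smul]
  xe k l i u := by rw [← mul_smul, D.x_e, mul_smul]
  te0 k i u := by rw [← mul_smul, D.t_e0, mul_smul]
  te1 k i u := by rw [← mul_smul, D.t_e1, mul_smul]
  te k l i u h1 h2 := by rw [← mul_smul, D.t_e k l i h1 h2, mul_smul]
  tx k l u h1 h2 := by rw [← mul_smul, D.t_x k l h1 h2, mul_smul]
  tx0 k i j u h1 h2 := by
    split_ifs with hij
    · subst hij
      rw [tx0_eq h1 h2]
      abel
    · rw [tx0_ne h1 h2 hij, sub_self]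
  tx1 k i j u h1 h2 := by
    split_ifs with hij
    · subst hij
      rw [tx1_eq h1 h2]
      abel
    · rw [tx1_ne h1 h2 hij, sub_self]
  tt k i j u h1 h2 := by
    split_ifs with hij
    · subst hij
      exact tt_eq h1 h2
    · rw [pow_smul_iter, tt_ne h1 h2 hij, smul_assoc]
  far k l u hkl := by rw [← mul_smul, D.t_far k l hkl, mul_smul]
  braid k i j l u h1 h2 h3 := by
    split_ifs with hij
    · obtain ⟨rfl, hij⟩ := hij
      rw [braid_ne h1 h2 h3 hij, add_sub_cancel_left, bterm, smul_assoc, Finset.sum_smul]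
      congr 1
      refine Finset.sum_congr rfl fun p _ => ?_
      rw [pow_smul_iter, pow_smul_iter, mul_smul]
    · rw [braid_eq h1 h2 h3, sub_self]
      by_cases hil : i = l
      · left
        by_contra hh
        exact hij ⟨hil, hh⟩
      · exact Or.inr hil

end ofM

theorem t_mem' (X : KLR.GMod D) (k : ℕ) (i j : I) (d : ℤ) (u : X.M) (hu : u ∈ X.gr d)
    (h1 : D.e k i • u = u) (h2 : D.e (k + 1) j • u = u) : D.t k • u ∈ X.gr (d - D.A i j) := by
  have h := X.t_mem k i j d u hu
  rwa [h2, h1] at h

/-- the operators of a graded module over `KLRAlg D` -/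
noncomputable def ofG (X : KLR.GMod D) : GMod D where
  toMod := ofM X.strand
  fin := X.fd
  gr := X.gr
  internal := X.internal
  e_gr := X.e_mem
  x_gr := X.x_mem
  t_gr k i j d u hu h1 h2 := t_mem' X k i j d u hu h1 h2

end Pool.Agent.KLR.St
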