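import Pool.Agent.Work.MP_e487d8_al.Stmt
import Pool.Agent.Work.MP_e487d8_al.Mod.Word
import Pool.Agent.Work.MP_e487d8_al.Span.Weyl

/-! MP_e487d8_al, block Fin: word idempotents on vectors; reduced words for the reflections on
`I → ℤ` and on `I →₀ ℤ`. -/

set_option autoImplicit false

namespace Pool.Agent.KLR

namespace Datum

variable {K I : Type} [Field K] [Fintype I] [DecidableEq I] (D : Datum K I)

theorem e_mul_eW (ν : List I) : ∀ (k : ℕ) (i : I), ν[k]? = some i →
    D.e k i * D.eW ν = D.eW ν := by
  induction ν with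
  | nil => intro k i h; simp at h
  | cons j ν ih =>
    intro k i h
    cases k with
    | zero =>
      simp only [List.getElem?_cons_zero, Option.some.injEq] at h
      subst h
      rw [eW_cons, ← mul_assoc, D.e_idem]
    | succ k =>
      simp only [List.getElem?_cons_succ] at h
      have h1 : D.e (k + 1) i = D.shn 1 (D.e k i) := by rw [shn_e, add_comm]
      rw [eW_cons, ← mul_assoc, D.e_comm (k + 1) 0 i j, mul_assoc, h1, ← map_mul, ih k i h]

variable {M : Type} [AddCommGroup M] [Module (KLRAlg D) M]

theorem shn_eW_smul (ν : List I) (u : M) : ∀ m : ℕ,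
    (∀ (k : ℕ) (i : I), ν[k]? = some i → D.e (m + k) i • u = u) → D.shn m (D.eW ν) • u = u := by
  induction ν with
  | nil => intro m _; rw [eW_nil, map_one, one_smul]
  | cons j ν ih =>
    intro m h
    rw [eW_cons, map_mul, D.shn_shn, mul_smul, shn_e, ih (m + 1)]
    · exact h 0 j (by simp)
    · intro k i hk
      rw [add_assoc, add_comm 1 k]
      exact h (k + 1) i (by simpa using hk)

theorem eW_smul_of (ν : List I) (u : M)
    (h : ∀ (k : ℕ) (i : I), ν[k]? = some i → D.e k i • u = u) : D.eW ν • u = u := by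
  have := D.shn_eW_smul ν u 0 (by simpa using h)
  rwa [D.shn_zero] at this

/-- the word idempotent `e(ν)` does not kill `M` iff some nonzero vector has the colours `ν` -/
theorem exists_eW_smul_ne (ν : List I) : (∃ u : M, D.eW ν • u ≠ 0) ↔
    ∃ u : M, u ≠ 0 ∧ ∀ (k : ℕ) (i : I), ν[k]? = some i → D.e k i • u = u := by
  constructor
  · rintro ⟨u, hu⟩
    refine ⟨D.eW ν • u, hu, fun k i h => ?_⟩
    rw [← mul_smul, D.e_mul_eW ν k i h]
  · rintro ⟨u, hu, h⟩
    exact ⟨u, by rwa [D.eW_smul_of ν u h]⟩

end Datum

section red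

open Work.MP_e487d8_al

variable {I : Type} [Fintype I] [DecidableEq I]

omit [DecidableEq I] in
theorem pair_equiv (A : I → I → ℤ) (i : I) (β : I →₀ ℤ) :
    ∑ l, A i l * Finsupp.equivFunOnFinite β l = Span.pair A i β := by
  unfold Span.pair
  rw [Finsupp.sum_fintype _ _ (fun _ => by ring)]
  exact Finset.sum_congr rfl fun l _ => mul_comm _ _

theorem refl_equiv (A : I → I → ℤ) (i : I) (β : I →₀ ℤ) :
    St.refl A i (Finsupp.equivFunOnFinite β) = Finsupp.equivFunOnFinite (Span.sr A i β) := by
  funext j
  unfold St.refl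
  rw [pair_equiv]
  by_cases h : j = i
  · subst h
    simp [Span.sr, Span.al]
  · simp [Span.sr, Span.al, h]

theorem prodRefl_equiv (A : I → I → ℤ) (w : List I) (β : I →₀ ℤ) :
    St.prodRefl A w (Finsupp.equivFunOnFinite β) = Finsupp.equivFunOnFinite (Span.act A w β) := by
  induction w with
  | nil => rfl
  | cons i w ih => rw [Span.act, St.prodRefl, ih, refl_equiv]

/-- the two definitions of reduced words agree -/
theorem reduced_iff (A : I → I → ℤ) (w : List I) : St.Reduced A w ↔ Span.Reduced A w := by
  have key : ∀ w' : List I, (∀ β, St.prodRefl A w' β = St.prodRefl A w β) ↔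
      (∀ β, Span.act A w' β = Span.act A w β) := by
    intro w'
    constructor
    · intro h β
      apply Finsupp.equivFunOnFinite.injective
      rw [← prodRefl_equiv, ← prodRefl_equiv, h]
    · intro h β
      obtain ⟨β, rfl⟩ := Finsupp.equivFunOnFinite.surjective β
      rw [prodRefl_equiv, prodRefl_equiv, h]
  unfold St.Reduced Span.Reduced
  simp only [key]

end red

end Pool.Agent.KLR
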