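import Pool.Agent.Work.MP_e487d8_al.Fin.Oper
import Pool.Agent.Work.MP_e487d8_al.Fin.Red
import Pool.Agent.Work.MP_e487d8_al.Grad.Defs

/-! MP_e487d8_al: the transfer of the notions of `Fin/Statement.lean` (modules over the algebra
`KLRAlg D`) to the notions of `Stmt.lean` (operators of the generators), part 2: homomorphisms,
balanced maps, induced modules, graded submodules. -/

set_option autoImplicit false
set_option linter.unusedSectionVars false

namespace Pool.Agent.KLR.St

variable {K I : Type} [Field K] [Fintype I] [DecidableEq I] {D : Datum K I}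

/-- the KLR algebra acts on `X` through the operators of `X` -/
structure Act (X : Mod D) [Module (KLRAlg D) X.M] : Prop where
  e : ∀ k i (u : X.M), D.e k i • u = X.e k i u
  x : ∀ k (u : X.M), D.x k • u = X.x k u
  t : ∀ k (u : X.M), D.t k • u = X.t k u

theorem Act.strand {X : Mod D} [Module (KLRAlg D) X.M] (h : Act X) : IsStrand D X.n X.M where
  one k hk u := by
    unfold Datum.E
    rw [Finset.sum_smul]
    simp only [h.e]
    exact X.sum_e k u hk
  zero k hk i u := by rw [h.e]; exact X.e_out k i u hk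

section hom

variable {X Y : Mod D} [Module (KLRAlg D) X.M] [IsScalarTower K (KLRAlg D) X.M]
  [Module (KLRAlg D) Y.M] [IsScalarTower K (KLRAlg D) Y.M]

/-- a homomorphism as a linear map over the KLR algebra -/
noncomputable def homR (hX : Act X) (hY : Act Y) {f : X.M → Y.M} (hf : IsHom X Y f) :
    X.M →ₗ[KLRAlg D] Y.M :=
  ofGens (hf.lin.mk' f) (fun k i u => by simp [hX.e, hY.e, hf.e])
    (fun k u => by simp [hX.x, hY.x, hf.x]) (fun k u => by simp [hX.t, hY.t, hf.t])

@[simp] theorem homR_apply (hX : Act X) (hY : Act Y) {f : X.M → Y.M} (hf : IsHom X Y f)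
    (u : X.M) : homR hX hY hf u = f u := rfl

theorem isHom_of (hX : Act X) (hY : Act Y) (f : X.M →ₗ[KLRAlg D] Y.M) : IsHom X Y f where
  lin := (Conv.toK f).isLinear
  e k i u := by rw [← hX.e, map_smul, hY.e]
  x k u := by rw [← hX.x, map_smul, hY.x]
  t k u := by rw [← hX.t, map_smul, hY.t]

end hom

section bal

variable {X Y W : Mod D} [Module (KLRAlg D) X.M] [IsScalarTower K (KLRAlg D) X.M]
  [Module (KLRAlg D) Y.M] [IsScalarTower K (KLRAlg D) Y.M]
  [Module (KLRAlg D) W.M] [IsScalarTower K (KLRAlg D) W.M]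

/-- the bilinear map of a balanced map -/
noncomputable def bil {f : X.M → Y.M → W.M} (hf : Balanced X Y W f) : X.M →ₗ[K] Y.M →ₗ[K] W.M :=
  LinearMap.mk₂ K f (fun u u' v => (hf.lin_left v).map_add u u')
    (fun r u v => (hf.lin_left v).map_smul r u) (fun u v v' => (hf.lin_right u).map_add v v')
    (fun r u v => (hf.lin_right u).map_smul r v)

@[simp] theorem bil_apply {f : X.M → Y.M → W.M} (hf : Balanced X Y W f) (u : X.M) (v : Y.M) :
    bil hf u v = f u v := rfl

theorem balR (hX : Act X) (hY : Act Y) (hW : Act W) {f : X.M → Y.M → W.M}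
    (hf : Balanced X Y W f) : KLR.Balanced D X.n (bil hf) where
  left a u v := by
    induction a using KLRAlg.induction generalizing u with
    | hs r =>
      rw [AlgHom.commutes, algebraMap_smul, algebraMap_smul, map_smul, LinearMap.smul_apply]
    | he k i =>
      rw [D.tr_e]
      split_ifs with h
      · rw [hW.e, hX.e, bil_apply, bil_apply, hf.e_left k i u v h]
      · rw [zero_smul, hX.e, X.e_out k i u (by omega), map_zero, LinearMap.zero_apply]
    | hx k =>
      rw [D.tr_x]
      split_ifs with h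
      · rw [hW.x, hX.x, bil_apply, bil_apply, hf.x_left k u v h]
      · rw [zero_smul, hX.x, X.x_out k u (by omega), map_zero, LinearMap.zero_apply]
    | ht k =>
      rw [D.tr_t]
      split_ifs with h
      · rw [hW.t, hX.t, bil_apply, bil_apply, hf.t_left k u v h]
      · rw [zero_smul, hX.t, X.t_out k u (by omega), map_zero, LinearMap.zero_apply]
    | hadd a b ha hb => rw [map_add, add_smul, add_smul, map_add, LinearMap.add_apply, ha, hb]
    | hmul a b ha hb => rw [map_mul, mul_smul, mul_smul, hb, ha]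
  right a u v := by
    induction a using KLRAlg.induction generalizing v with
    | hs r => rw [AlgHom.commutes, algebraMap_smul, algebraMap_smul, map_smul]
    | he k i => rw [D.shn_e, hW.e, hY.e, bil_apply, bil_apply, hf.e_right]
    | hx k => rw [D.shn_x, hW.x, hY.x, bil_apply, bil_apply, hf.x_right]
    | ht k => rw [D.shn_t, hW.t, hY.t, bil_apply, bil_apply, hf.t_right]
    | hadd a b ha hb => rw [map_add, add_smul, add_smul, map_add, ha, hb]
    | hmul a b ha hb => rw [map_mul, mul_smul, mul_smul, hb, ha]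

theorem balanced_of (hX : Act X) (hY : Act Y) (hW : Act W) (β : X.M →ₗ[K] Y.M →ₗ[K] W.M)
    (h : KLR.Balanced D X.n β) : Balanced X Y W fun u v => β u v where
  lin_left v := (β.flip v).isLinear
  lin_right u := (β u).isLinear
  e_left k i u v hk := by
    have h1 := h.left (D.e k i) u v
    rw [D.tr_e, if_pos hk, hW.e, hX.e] at h1
    exact h1
  x_left k u v hk := by
    have h1 := h.left (D.x k) u v
    rw [D.tr_x, if_pos hk, hW.x, hX.x] at h1
    exact h1
  t_left k u v hk := by
    have h1 := h.left (D.t k) u v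
    rw [D.tr_t, if_pos hk, hW.t, hX.t] at h1
    exact h1
  e_right k i u v := by
    have h1 := h.right (D.e k i) u v
    rw [D.shn_e, hW.e, hY.e] at h1
    exact h1
  x_right k u v := by
    have h1 := h.right (D.x k) u v
    rw [D.shn_x, hW.x, hY.x] at h1
    exact h1
  t_right k u v := by
    have h1 := h.right (D.t k) u v
    rw [D.shn_t, hW.t, hY.t] at h1
    exact h1

end bal


section induced

variable {X Y Z : Mod D} [Module (KLRAlg D) X.M] [IsScalarTower K (KLRAlg D) X.M]
  [Module (KLRAlg D) Y.M] [IsScalarTower K (KLRAlg D) Y.M]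
  [Module (KLRAlg D) Z.M] [IsScalarTower K (KLRAlg D) Z.M]

/-- the universal map into the convolution product is balanced -/
theorem balanced_mk (hX : Act X) (hY : Act Y) :
    Balanced X Y (ofM (Conv.isStrand hX.strand hY.strand))
      fun u v => Conv.mk D X.n X.M Y.M u v where
  lin_left v := ((Conv.mk D X.n X.M Y.M).flip v).isLinear
  lin_right u := (Conv.mk D X.n X.M Y.M u).isLinear
  e_left k i u v hk := by
    have h1 := Conv.tr_smul_mk (m := X.n) (D.e k i) u v
    rw [D.tr_e, if_pos hk, hX.e] at h1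
    exact h1
  x_left k u v hk := by
    have h1 := Conv.tr_smul_mk (m := X.n) (D.x k) u v
    rw [D.tr_x, if_pos hk, hX.x] at h1
    exact h1
  t_left k u v hk := by
    have h1 := Conv.tr_smul_mk (m := X.n) (D.t k) u v
    rw [D.tr_t, if_pos hk, hX.t] at h1
    exact h1
  e_right k i u v := by
    have h1 := Conv.shn_smul_mk (m := X.n) (D.e k i) u v
    rw [D.shn_e, hY.e] at h1
    exact h1
  x_right k u v := by
    have h1 := Conv.shn_smul_mk (m := X.n) (D.x k) u v
    rw [D.shn_x, hY.x] at h1
    exact h1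
  t_right k u v := by
    have h1 := Conv.shn_smul_mk (m := X.n) (D.t k) u v
    rw [D.shn_t, hY.t] at h1
    exact h1

/-- an induced module is isomorphic to the convolution product -/
theorem exists_iso (hX : Act X) (hY : Act Y) (hZ : Act Z) {f : X.M → Y.M → Z.M}
    (hf : IsInduced X Y Z f) : ∃ g : Conv D X.n X.M Y.M ≃ₗ[KLRAlg D] Z.M,
      ∀ u v, g (Conv.mk D X.n X.M Y.M u v) = f u v := by
  let g : Conv D X.n X.M Y.M →ₗ[KLRAlg D] Z.M :=
    Conv.lift (bil hf.balanced) (balR hX hY hZ hf.balanced)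
  have hg : ∀ u v, g (Conv.mk D X.n X.M Y.M u v) = f u v := fun u v => Conv.lift_mk _ _ u v
  obtain ⟨h, ⟨hh, hfh⟩, -⟩ := hf.universal (ofM (Conv.isStrand hX.strand hY.strand)) _ rfl
    (balanced_mk hX hY)
  let h0 : Z.M →ₗ[K] Conv D X.n X.M Y.M := hh.lin.mk' h
  let h' : Z.M →ₗ[KLRAlg D] Conv D X.n X.M Y.M :=
    ofGens h0
      (fun k i u => by rw [hZ.e]; exact hh.e k i u)
      (fun k u => by rw [hZ.x]; exact hh.x k u)
      (fun k u => by rw [hZ.t]; exact hh.t k u)
  have hh' : ∀ u v, h' (f u v) = Conv.mk D X.n X.M Y.M u v := hfh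
  have h1 : g.comp h' = LinearMap.id := by
    have h2 := (hf.universal Z f hf.strands hf.balanced).unique
      (y₁ := fun u => g (h' u)) (y₂ := fun u => u)
      ⟨isHom_of hZ hZ (g.comp h'), fun u v => by rw [hh', hg]⟩
      ⟨isHom_of hZ hZ LinearMap.id, fun u v => rfl⟩
    ext u
    exact congrFun h2 u
  have h3 : h'.comp g = LinearMap.id := by
    apply Conv.hom_ext
    intro u v
    rw [LinearMap.comp_apply, hg, hh', LinearMap.id_apply]
  exact ⟨LinearEquiv.ofLinearMap g h' h1 h3, hg⟩

end induced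

/-- the module over the KLR algebra -/
@[reducible] noncomputable def modA (X : Mod D) : Module (KLRAlg D) X.M :=
  Module.compHom X.M (X.act : KLRAlg D →+* Module.End K X.M)

theorem towA (X : Mod D) : @IsScalarTower K (KLRAlg D) X.M _ (modA X).toSMul _ :=
  letI := modA X
  { smul_assoc := fun r a u => by
      change X.act (r • a) u = r • X.act a u
      rw [map_smul]
      rfl }

theorem act (X : Mod D) : @Act K I _ _ _ D X (modA X) :=
  letI := modA X
  { e := X.act_e
    x := X.act_x
    t := X.act_t }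

section induced

variable {X Y Z : Mod D} [Module (KLRAlg D) X.M] [IsScalarTower K (KLRAlg D) X.M]
  [Module (KLRAlg D) Y.M] [IsScalarTower K (KLRAlg D) Y.M]
  [Module (KLRAlg D) Z.M] [IsScalarTower K (KLRAlg D) Z.M]

/-- the convolution product is an induced module -/
theorem isInduced_of (hX : Act X) (hY : Act Y) (hZ : Act Z) (hn : Z.n = X.n + Y.n)
    (g : Conv D X.n X.M Y.M ≃ₗ[KLRAlg D] Z.M) :
    IsInduced X Y Z fun u v => g (Conv.mk D X.n X.M Y.M u v) where
  strands := hn
  balanced := balanced_of hX hY hZ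
    ((Conv.mk D X.n X.M Y.M).compr₂ (Conv.toK (g : Conv D X.n X.M Y.M →ₗ[KLRAlg D] Z.M)))
    { left := fun a u v => by
        change D.tr X.n a • g (Conv.mk D X.n X.M Y.M u v) = g (Conv.mk D X.n X.M Y.M (a • u) v)
        rw [← Conv.tr_smul_mk, map_smul]
      right := fun a u v => by
        change D.shn X.n a • g (Conv.mk D X.n X.M Y.M u v) = g (Conv.mk D X.n X.M Y.M u (a • v))
        rw [← Conv.shn_smul_mk, map_smul] }
  universal W g' hW hg' := by
    let _ := modA W
    let _ := towA W
    have hA : Act W := act W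
    let φ : Conv D X.n X.M Y.M →ₗ[KLRAlg D] W.M := Conv.lift (bil hg') (balR hX hY hA hg')
    have hφ : ∀ u v, φ (Conv.mk D X.n X.M Y.M u v) = g' u v := fun u v => Conv.lift_mk _ _ u v
    refine ⟨fun z => φ (g.symm z), ⟨isHom_of hZ hA (φ.comp g.symm.toLinearMap), fun u v => ?_⟩, ?_⟩
    · change φ (g.symm (g (Conv.mk D X.n X.M Y.M u v))) = _
      rw [LinearEquiv.symm_apply_apply, hφ]
    · rintro h ⟨hh, hfh⟩
      have h1 : (homR hZ hA hh).comp g.toLinearMap = φ := by
        apply Conv.hom_ext
        intro u v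
        rw [hφ]
        exact hfh u v
      funext z
      rw [← h1]
      change h z = h (g (g.symm z))
      rw [LinearEquiv.apply_symm_apply]

end induced

/-- the number of strands of a nonzero module is determined by the module -/
theorem n_unique {m n : ℕ} {M N : Type} [AddCommGroup M] [Module (KLRAlg D) M] [AddCommGroup N]
    [Module (KLRAlg D) N] (h : IsStrand D m M) (h' : IsStrand D n N) (f : M ≃ₗ[KLRAlg D] N)
    {u : M} (hu : u ≠ 0) : m = n := by
  rcases lt_trichotomy m n with hlt | heq | hlt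
  · have h1 := h'.one m hlt (f u)
    rw [← map_smul, h.E_smul_zero (le_refl _), map_zero] at h1
    exact absurd ((LinearEquiv.map_eq_zero_iff f).1 h1.symm) hu
  · exact heq
  · have h1 := h.one n hlt u
    have h2 := h'.E_smul_zero (le_refl _) (f u)
    rw [← map_smul, h1] at h2
    exact absurd ((LinearEquiv.map_eq_zero_iff f).1 h2) hu

namespace GMod

variable {X Y Z : GMod D}

theorem isHom_iff (f : X.M → Y.M) :
    IsHom X.toMod Y.toMod f ↔ ∃ g : X.toG.M →ₗ[KLRAlg D] Y.toG.M, f = g := by
  let _ := modA X.toMod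
  let _ := towA X.toMod
  let _ := modA Y.toMod
  let _ := towA Y.toMod
  constructor
  · intro h
    let g : X.M →ₗ[KLRAlg D] Y.M := homR (act X.toMod) (act Y.toMod) h
    exact ⟨g, rfl⟩
  · rintro ⟨g, rfl⟩
    exact isHom_of (act X.toMod) (act Y.toMod) g

theorem shiftIso_toG (h : X.ShiftIso Y) : X.toG.ShiftIso Y.toG := by
  obtain ⟨-, s, f, hb, hf, hd⟩ := h
  obtain ⟨g, rfl⟩ := (isHom_iff f).1 hf
  exact ⟨s, LinearEquiv.ofBijective g hb, hd⟩

theorem shiftIso_of_toG [Nontrivial X.M] (h : X.toG.ShiftIso Y.toG) : X.ShiftIso Y := by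
  obtain ⟨s, f, hd⟩ := h
  obtain ⟨u, hu⟩ := exists_ne (0 : X.M)
  refine ⟨?_, s, f, f.bijective, (isHom_iff (X := X) (Y := Y) f).2 ⟨f.toLinearMap, rfl⟩, hd⟩
  exact n_unique X.toG.strand Y.toG.strand f hu

theorem shiftIso_iff (hX : Nontrivial X.M) : X.ShiftIso Y ↔ X.toG.ShiftIso Y.toG :=
  ⟨shiftIso_toG, shiftIso_of_toG⟩

theorem isConv_toG (h : X.IsConv Y Z) : X.toG.IsConv Y.toG Z.toG := by
  obtain ⟨s, f, hf, hd⟩ := h
  let _ := modA X.toMod
  let _ := towA X.toMod
  let _ := modA Y.toMod
  let _ := towA Y.toMod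
  let _ := modA Z.toMod
  let _ := towA Z.toMod
  obtain ⟨g, hg⟩ := exists_iso (act X.toMod) (act Y.toMod) (act Z.toMod) hf
  refine ⟨s, g, fun a b u v hu hv => ?_⟩
  have h1 : g (Conv.mk D X.n X.M Y.M u v) = f u v := hg u v
  have h2 : f u v ∈ Z.gr (a + b + s) := hd a b u v hu hv
  rw [← h1] at h2
  exact h2

theorem isConv_of_toG [Nontrivial Z.M] (h : X.toG.IsConv Y.toG Z.toG) : X.IsConv Y Z := by
  obtain ⟨s, g, hd⟩ := h
  let _ := modA X.toMod
  let _ := towA X.toMod
  let _ := modA Y.toMod
  let _ := towA Y.toMod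
  let _ := modA Z.toMod
  let _ := towA Z.toMod
  obtain ⟨u, hu⟩ := exists_ne (0 : Z.M)
  have hn : Z.n = X.n + Y.n := by
    refine (n_unique (Conv.isStrand X.toG.strand Y.toG.strand) Z.toG.strand g
      (u := g.symm u) ?_).symm
    intro h0
    exact hu ((LinearEquiv.map_eq_zero_iff g.symm).1 h0)
  exact ⟨s, _, isInduced_of (act X.toMod) (act Y.toMod) (act Z.toMod) hn g, hd⟩

theorem isConv_iff (hZ : Nontrivial Z.M) : X.IsConv Y Z ↔ X.toG.IsConv Y.toG Z.toG :=
  ⟨isConv_toG, isConv_of_toG⟩

/-- a subspace which is stable under the operators is stable under the algebra -/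
theorem act_mem (X : Mod D) (H : Submodule K X.M)
    (he : ∀ k i, ∀ u ∈ H, X.e k i u ∈ H) (hx : ∀ k, ∀ u ∈ H, X.x k u ∈ H)
    (ht : ∀ k, ∀ u ∈ H, X.t k u ∈ H) (a : KLRAlg D) (u : X.M) (hu : u ∈ H) : X.act a u ∈ H := by
  induction a using KLRAlg.induction generalizing u with
  | hs r =>
    rw [AlgHom.commutes, Module.algebraMap_end_apply]
    exact H.smul_mem r hu
  | he k i => rw [X.act_e]; exact he k i u hu
  | hx k => rw [X.act_x]; exact hx k u hu
  | ht k => rw [X.act_t]; exact ht k u hu
  | hadd a b ha hb => rw [map_add, LinearMap.add_apply]; exact H.add_mem (ha u hu) (hb u hu)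
  | hmul a b ha hb => rw [map_mul, Module.End.mul_apply]; exact ha _ (hb u hu)

/-- a subspace which is stable under the operators is a submodule -/
noncomputable def subR (X : GMod D) (H : Submodule K X.M)
    (he : ∀ k i, ∀ u ∈ H, X.e k i u ∈ H) (hx : ∀ k, ∀ u ∈ H, X.x k u ∈ H)
    (ht : ∀ k, ∀ u ∈ H, X.t k u ∈ H) : Submodule (KLRAlg D) X.toG.M where
  carrier := (H : Set X.M)
  add_mem' hu hv := H.add_mem hu hv
  zero_mem' := H.zero_mem
  smul_mem' a u hu := act_mem X.toMod H he hx ht a u hu

theorem mem_subR (X : GMod D) (H : Submodule K X.M) (he hx ht) (u : X.M) :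
    u ∈ (subR X H he hx ht : Set X.toG.M) ↔ u ∈ H := Iff.rfl

theorem irr_of_toG (h : X.toG.Irr) : X.Irr where
  nontrivial := h.nontrivial
  simple N he hx ht hgr := by
    have hN : X.toG.IsGraded (subR X N he hx ht) := by
      intro u hu
      let S : Submodule (KLRAlg D) X.toG.M :=
        Submodule.span (KLRAlg D) {v | v ∈ subR X N he hx ht ∧ ∃ d, v ∈ X.toG.gr d}
      have hu' : u ∈ ⨆ d, N ⊓ X.gr d := hgr hu
      let S' : Submodule K X.M := (S.restrictScalars K : Submodule K X.toG.M)
      have hv : ∀ v : X.toG.M, v ∈ subR X N he hx ht → (∃ d, v ∈ X.toG.gr d) → v ∈ S :=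
        fun v h1 h2 => Submodule.subset_span ⟨h1, h2⟩
      have hS : (⨆ d, N ⊓ X.gr d) ≤ S' := iSup_le fun d v h1 => hv v h1.1 ⟨d, h1.2⟩
      exact hS hu'
    rcases h.simple _ hN with h0 | h1
    · left
      rw [Submodule.eq_bot_iff] at h0 ⊢
      exact h0
    · right
      rw [Submodule.eq_top_iff'] at h1 ⊢
      exact h1

theorem irr_toG (h : X.Irr) : X.toG.Irr where
  nontrivial := h.nontrivial
  simple N hN := by
    let N' : Submodule K X.M := N.restrictScalars K
    have hNe : ∀ k i, ∀ u ∈ N', X.e k i u ∈ N' := by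
      intro k i u hu
      rw [← X.toG_e]
      exact N.smul_mem _ hu
    have hNx : ∀ k, ∀ u ∈ N', X.x k u ∈ N' := by
      intro k u hu
      rw [← X.toG_x]
      exact N.smul_mem _ hu
    have hNt : ∀ k, ∀ u ∈ N', X.t k u ∈ N' := by
      intro k u hu
      rw [← X.toG_t]
      exact N.smul_mem _ hu
    let H : Submodule K X.M := ⨆ d, N' ⊓ X.gr d
    have hle : ∀ d, N' ⊓ X.gr d ≤ H := fun d => le_iSup (fun d => N' ⊓ X.gr d) d
    have hHe : ∀ k i, ∀ u ∈ H, X.e k i u ∈ H := by
      intro k i
      have : H ≤ H.comap (X.eL k i) := by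
        refine iSup_le fun d u hu => ?_
        exact hle d ⟨hNe k i u hu.1, X.e_gr k i d u hu.2⟩
      exact this
    have hHx : ∀ k, ∀ u ∈ H, X.x k u ∈ H := by
      intro k
      have : H ≤ H.comap (X.xL k) := by
        refine iSup_le fun d u hu => ?_
        exact hle (d + 2) ⟨hNx k u hu.1, X.x_gr k d u hu.2⟩
      exact this
    have hHt : ∀ k, ∀ u ∈ H, X.t k u ∈ H := by
      intro k
      by_cases hk : k + 1 < X.n
      · have : H ≤ H.comap (X.tL k) := by
          refine iSup_le fun d u hu => ?_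
          change X.tL k u ∈ H
          rw [← X.sum_e (k + 1) u hk, map_sum]
          refine Submodule.sum_mem _ fun j _ => ?_
          rw [← X.sum_e k (X.e (k + 1) j u) (by omega), map_sum]
          refine Submodule.sum_mem _ fun i _ => ?_
          refine hle (d - D.A i j) ⟨hNt k _ (hNe k i _ (hNe (k + 1) j u hu.1)),
            X.t_gr k i j d _ (X.e_gr _ _ _ _ (X.e_gr _ _ _ _ hu.2)) (X.e_idem _ _ _) ?_⟩
          rw [X.ee_comm, X.e_idem]
        exact this
      · intro u _
        rw [X.t_out k u (by omega)]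
        exact H.zero_mem
    have hgr : N' ≤ H := by
      intro u hu
      have h1 : Submodule.span (KLRAlg D) {v | v ∈ N ∧ ∃ d, v ∈ X.toG.gr d} ≤
          subR X H hHe hHx hHt := by
        rw [Submodule.span_le]
        rintro v ⟨hv, d, hd⟩
        exact hle d ⟨hv, hd⟩
      exact h1 (hN hu)
    rcases h.simple N' hNe hNx hNt hgr with h0 | h1
    · left
      rw [Submodule.eq_bot_iff] at h0 ⊢
      exact h0
    · right
      rw [Submodule.eq_top_iff'] at h1 ⊢
      exact h1

theorem irr_iff : X.Irr ↔ X.toG.Irr := ⟨irr_toG, irr_of_toG⟩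

end GMod

omit [Fintype I] [DecidableEq I] in
theorem powWord_eq (w : List I) (a : List ℕ) : St.powWord w a = KLR.powWord w a := by
  induction w generalizing a with
  | nil => rfl
  | cons i w ih =>
    cases a with
    | nil => rfl
    | cons b a => exact congrArg _ (ih a)

namespace GMod

variable {X : GMod D}

theorem adapted_iff (w : List I) : X.Adapted w ↔ X.toG.Adapted w := by
  unfold GMod.Adapted KLR.GMod.Adapted
  refine exists_congr fun a => and_congr Iff.rfl ?_
  rw [powWord_eq]
  refine and_congr Iff.rfl ?_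
  rw [Datum.exists_eW_smul_ne]
  refine exists_congr fun u => and_congr Iff.rfl ?_
  refine forall_congr' fun k => forall_congr' fun i => forall_congr' fun _ => ?_
  rw [X.toG_e]
  exact Iff.rfl

end GMod

/-! ### the two kinds of modules correspond to each other -/

theorem mk_congr {n : ℕ} {M : Type} {acg : AddCommGroup M} {modK : Module K M}
    {m m' : Module (KLRAlg D) M} (h : m = m') {fd : FiniteDimensional K M} {gr : ℤ → Submodule K M}
    {internal : DirectSum.IsInternal gr} {tow strand e x t tow' strand' e' x' t'} :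
    @KLR.GMod.mk K I _ _ _ D n M acg modK m tow strand fd gr internal e x t =
      @KLR.GMod.mk K I _ _ _ D n M acg modK m' tow' strand' fd gr internal e' x' t' := by
  subst h
  rfl

theorem act_ofM {n : ℕ} {M : Type} [AddCommGroup M] [Module K M] [Module (KLRAlg D) M]
    [IsScalarTower K (KLRAlg D) M] (h : IsStrand D n M) (a : KLRAlg D) (u : M) :
    (ofM h).act a u = a • u := by
  induction a using KLRAlg.induction generalizing u with
  | hs r =>
    rw [AlgHom.commutes, algebraMap_smul]
    rfl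
  | he k i => exact (ofM h).act_e k i u
  | hx k => exact (ofM h).act_x k u
  | ht k => exact (ofM h).act_t k u
  | hadd a b ha hb => rw [add_smul, ← ha, ← hb, map_add]; rfl
  | hmul a b ha hb =>
    rw [mul_smul, map_mul]
    exact (ha _).trans (congrArg _ (hb u))

theorem toG_ofG (X : KLR.GMod D) : (ofG X).toG = X := by
  have h : (ofG X).toG.modR = X.modR := by
    refine Module.ext' _ _ fun a u => ?_
    exact act_ofM X.strand a u
  exact mk_congr h

theorem gmod_congr {n : ℕ} {M : Type} {acg : AddCommGroup M} {modK : Module K M}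
    {e e' : ℕ → I → M → M} {x x' t t' : ℕ → M → M} (he : e = e') (hx : x = x') (ht : t = t')
    {a1 a2 a3 a4 a5 a6 a7 a8 a9 a10 a11 a12 a13 a14 a15 a16 a17 a18 a19 a20
      b1 b2 b3 b4 b5 b6 b7 b8 b9 b10 b11 b12 b13 b14 b15 b16 b17 b18 b19 b20}
    {fin : Module.Finite K M} {gr : ℤ → Submodule K M}
    {internal : DirectSum.IsInternal gr} {c1 c2 c3 d1 d2 d3} :
    @GMod.mk K I _ _ _ D (@Mod.mk K I _ _ _ D n M acg modK e x t a1 a2 a3 a4 a5 a6 a7 a8 a9 a10
      a11 a12 a13 a14 a15 a16 a17 a18 a19 a20) fin gr internal c1 c2 c3 =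
    @GMod.mk K I _ _ _ D (@Mod.mk K I _ _ _ D n M acg modK e' x' t' b1 b2 b3 b4 b5 b6 b7 b8 b9 b10
      b11 b12 b13 b14 b15 b16 b17 b18 b19 b20) fin gr internal d1 d2 d3 := by
  subst he hx ht
  rfl

theorem ofG_toG (X : GMod D) : ofG X.toG = X := by
  have he : (ofG X.toG).e = X.e := by
    funext k i u
    exact X.act_e k i u
  have hx : (ofG X.toG).x = X.x := by
    funext k u
    exact X.act_x k u
  have ht : (ofG X.toG).t = X.t := by
    funext k u
    exact X.act_t k u
  obtain ⟨⟨⟩⟩ := X
  exact gmod_congr he hx ht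

theorem toG_ofG_iso (X : KLR.GMod D) : Nonempty ((ofG X).toG.M ≃ₗ[KLRAlg D] X.M) := by
  rw [toG_ofG]
  exact ⟨LinearEquiv.refl _ _⟩

theorem toG_injective : Function.Injective (GMod.toG : GMod D → KLR.GMod D) :=
  Function.LeftInverse.injective ofG_toG

theorem toG_surjective : Function.Surjective (GMod.toG : GMod D → KLR.GMod D) :=
  fun X => ⟨ofG X, toG_ofG X⟩

end Pool.Agent.KLR.St
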